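import Pool.Agent.MP_e7e597_an.H71.Hyp

/-! The scalar inequality behind the threshold. -/

open Real Set

namespace Pool.Agent.MP_e7e597_an.H71

theorem alg_a {p q x y z A B C : ℝ} (hp : 0 ≤ p) (hpq : p ≤ q) (hq : q ≤ 3.2) (hx : 0 ≤ x)
    (hy : 0 ≤ y) (hz : 0 ≤ z) (hne : 0 < x ^ 2 + y ^ 2 + z ^ 2) (hA : A ≤ 3 * p - 1)
    (hB : B ≤ 3 * q - 1) (hC : 2 ≤ C) (hC' : 3 * (q - p) - 1 ≤ C)
    (hc : (p + q) * x = (q - 2 * p) * y + (p - 2 * q) * z) :
    0 < x ^ 2 + y ^ 2 + z ^ 2 - A * x * y - B * x * z + C * y * z := by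
  rcases hx.eq_or_lt with h | hx0
  · subst h
    have : 0 ≤ C * y * z := by positivity
    nlinarith
  have key : A * x ≤ y ∧ B * x ≤ C * y := by
    rcases (show 0 ≤ q by linarith).eq_or_lt with h | hq0
    · have : 0 ≤ C * y := by positivity
      constructor <;> nlinarith
    have h1 : (p + q) * x ≤ (q - 2 * p) * y := by
      nlinarith [mul_nonneg (show 0 ≤ 2 * q - p by linarith) hz]
    have h2 : 0 < (p + q) * x := by positivity
    have h3 : 0 < q - 2 * p := by
      by_contra hn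
      nlinarith [mul_nonneg (show 0 ≤ 2 * p - q by linarith) hy]
    have h4 : x ≤ y := by
      refine le_of_mul_le_mul_left ?_ h3
      nlinarith [mul_nonneg hp hx]
    constructor
    · rcases le_total p (2 / 3) with h5 | h5
      · nlinarith
      · have h6 : (3 * p - 1) * (q - 2 * p) ≤ p + q := by
          nlinarith [mul_nonneg (show 0 ≤ 3 * p - 2 by linarith) (show 0 ≤ 3.2 - q by linarith),
            sq_nonneg (p - 0.9)]
        refine le_of_mul_le_mul_left ?_ h3
        nlinarith [mul_le_mul_of_nonneg_right h6 hx,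
          mul_le_mul_of_nonneg_right hA (mul_nonneg h3.le hx)]
    · rcases le_total q 1 with h5 | h5
      · nlinarith
      · have h6 : (3 * q - 1) * (q - 2 * p) ≤ C * (p + q) := by
          nlinarith [mul_nonneg hp (show 0 ≤ 2 * q - p - 1 by linarith),
            mul_le_mul_of_nonneg_right hC' (show 0 ≤ p + q by linarith)]
        refine le_of_mul_le_mul_left ?_ h3
        nlinarith [mul_le_mul_of_nonneg_right h6 hx,
          mul_le_mul_of_nonneg_right hB (mul_nonneg h3.le hx),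
          mul_le_mul_of_nonneg_left h1 (show 0 ≤ C by linarith)]
  nlinarith [mul_le_mul_of_nonneg_right key.1 hy, mul_le_mul_of_nonneg_right key.2 hz,
    sq_nonneg z, pow_pos hx0 2]

theorem alg_b {s t T x m g P R C : ℝ} (hs : 0 < s) (hs' : s ≤ 1.6) (ht0 : 0 ≤ t) (ht : t ≤ 1)
    (hT : 0 < T) (hT1 : T < 1) (hS : s * (1 - T ^ 2) ≤ T) (hx : 0 ≤ x) (hg : g = t * (x + m) / 3)
    (hy : 0 ≤ m - g) (hz : 0 ≤ m + g) (hne : 0 < x ^ 2 + m ^ 2)
    (hP : P ≤ s * (1 + t) * (T + (1 - T ^ 2) * (t * s)))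
    (hR : R ≤ s * (1 - t) * (T - (1 - T ^ 2) * (t * s))) (hC : 2 ≤ C)
    (hC' : (C + 1) * T = 3 * s * (1 + T ^ 2)) (hthr : 3 * s * T ^ 3 < 1 + 3 * T ^ 2) :
    0 < x ^ 2 + (m - g) ^ 2 + (m + g) ^ 2 - (3 * P - 1) * x * (m - g) -
      (3 * R - 1) * x * (m + g) + C * (m - g) * (m + g) := by
  have hm : 0 ≤ m := by linarith
  set S := 1 - T ^ 2 with hSd
  have hS0 : 0 < S := by nlinarith
  set E := x ^ 2 - 2 * (3 * s * T - 1) * x * m + (2 + C) * m ^ 2 with hE
  set Jx := 2 * s * T * x * (x + m) - 2 * s ^ 2 * S * x * (2 * m - x) - (C - 2) * (x + m) ^ 2 / 9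
    with hJ
  have h1 : E + t ^ 2 * Jx ≤ x ^ 2 + (m - g) ^ 2 + (m + g) ^ 2 - (3 * P - 1) * x * (m - g) -
      (3 * R - 1) * x * (m + g) + C * (m - g) * (m + g) := by
    have a1 := mul_le_mul_of_nonneg_right hP (mul_nonneg hx hy)
    have a2 := mul_le_mul_of_nonneg_right hR (mul_nonneg hx hz)
    have a3 : E + t ^ 2 * Jx = x ^ 2 + (m - g) ^ 2 + (m + g) ^ 2 + x * (m - g) + x * (m + g) +
        C * (m - g) * (m + g) - 3 * (s * (1 + t) * (T + S * (t * s)) * (x * (m - g))) -
        3 * (s * (1 - t) * (T - S * (t * s)) * (x * (m + g))) := by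
      rw [hE, hJ, hg]
      ring
    linarith
  have h2 : 0 < 2 + C - (3 * s * T - 1) ^ 2 := by
    refine (mul_pos_iff_of_pos_right hT).1 ?_
    have : (2 + C - (3 * s * T - 1) ^ 2) * T = 3 * s * (1 + 3 * T ^ 2 - 3 * s * T ^ 3) := by
      linear_combination hC'
    rw [this]
    exact mul_pos (by linarith) (by linarith)
  have h3 : 0 < E := by
    have e : E = (x - (3 * s * T - 1) * m) ^ 2 + (2 + C - (3 * s * T - 1) ^ 2) * m ^ 2 := by
      rw [hE]; ring
    rcases hm.eq_or_lt with h | h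
    · rw [e, ← h]
      rw [← h] at hne
      simpa using hne
    · rw [e]
      positivity
  refine lt_of_lt_of_le ?_ h1
  rcases le_total (2 * m) x with h | h
  · have h4 : C - 2 ≤ 12 * s * T := by
      refine le_of_mul_le_mul_right ?_ hT
      nlinarith [mul_pos hs (pow_pos hT 2)]
    have h5 : 0 ≤ Jx := by
      have b1 : 0 ≤ 2 * s ^ 2 * S * x * (x - 2 * m) :=
        mul_nonneg (by positivity) (by linarith)
      have b2 : (C - 2) * (x + m) ≤ 12 * s * T * (3 / 2 * x) :=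
        mul_le_mul h4 (by linarith) (by linarith) (by positivity)
      have b3 := mul_le_mul_of_nonneg_right b2 (show 0 ≤ x + m by linarith)
      rw [hJ]
      nlinarith
    positivity
  · have h4 : s * (T + s * S) ≤ 3.2 := by nlinarith
    have h5 : 0 < E + Jx := by
      have e : E + Jx = x ^ 2 + 2 * x * m + 4 * m ^ 2 + (C - 2) * ((2 * m - x) * (4 * m + x)) / 9 -
          2 * (s * (T + s * S)) * (x * (2 * m - x)) := by
        rw [hE, hJ]; ring
      have b1 : 0 ≤ (C - 2) * ((2 * m - x) * (4 * m + x)) :=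
        mul_nonneg (by linarith) (mul_nonneg (by linarith) (by linarith))
      have b2 := mul_le_mul_of_nonneg_right h4 (mul_nonneg hx (show 0 ≤ 2 * m - x by linarith))
      rw [e]
      nlinarith [sq_nonneg (1.36 * x - m), sq_nonneg x, sq_nonneg m]
    have h6 : t ^ 2 ≤ 1 := by nlinarith
    nlinarith [mul_nonneg (sq_nonneg t) h5.le, mul_nonneg (sub_nonneg.2 h6) h3.le]

end Pool.Agent.MP_e7e597_an.H71
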