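import Mathlib

/-! Definitions for the ellipticity threshold of energies of the logarithmic distortion. -/

open Matrix

namespace Pool.Agent.MP_e7e597_an.H71

/-- The stretch `U = sqrt (Fᵀ F)`, by the continuous functional calculus. -/
noncomputable def stretch (F : Matrix (Fin 3) (Fin 3) ℝ) : Matrix (Fin 3) (Fin 3) ℝ :=
  cfc Real.sqrt (Fᵀ * F)

/-- The logarithmic strain `log U`, by the continuous functional calculus. -/
noncomputable def logU (F : Matrix (Fin 3) (Fin 3) ℝ) : Matrix (Fin 3) (Fin 3) ℝ :=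
  cfc Real.log (stretch F)

/-- The deviatoric part `X - (tr X / 3) 1`. -/
noncomputable def dev (X : Matrix (Fin 3) (Fin 3) ℝ) : Matrix (Fin 3) (Fin 3) ℝ :=
  X - (X.trace / 3) • (1 : Matrix (Fin 3) (Fin 3) ℝ)

/-- `K F = ‖dev log U‖ ^ 2` in the Frobenius norm. -/
noncomputable def K (F : Matrix (Fin 3) (Fin 3) ℝ) : ℝ :=
  (dev (logU F) * (dev (logU F))ᵀ).trace

/-- Strict Legendre-Hadamard ellipticity of `F ↦ W (K F)` at the matrix `F`. -/
def EllipticAt (W : ℝ → ℝ) (F : Matrix (Fin 3) (Fin 3) ℝ) : Prop :=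
  ∀ ξ η : Fin 3 → ℝ, ξ ≠ 0 → η ≠ 0 →
    0 < iteratedDeriv 2 (fun t : ℝ => W (K (F + t • vecMulVec ξ η))) 0

end Pool.Agent.MP_e7e597_an.H71
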