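import Pool.Agent.MP_e7e597_an.H71.Int

/-! Two derivatives under the integral sign. -/

open MeasureTheory Set Filter Topology Metric

namespace Pool.Agent.MP_e7e597_an.H71

/-- Increment of the kernel along a rank-one line. -/
noncomputable def Lf (a B A t s : ℝ) : ℝ :=
  (Real.log ((1 + t * a) ^ 2 + t ^ 2 * s * B) - 2 * Real.log (1 + t * A) / (1 + s)) / s

/-- Difference quotient of the derivative of `Lf`. -/
noncomputable def Rf (a b B A t s : ℝ) : ℝ :=
  2 * B / (((1 + t * a) ^ 2 + t ^ 2 * s * B) * (1 + t * a)) +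
    2 * (a * A - (a - b) * (a + A + t * a * A)) / ((1 + t * a) * (1 + t * A) * (1 + s))

theorem half_le {a M t : ℝ} (ha : |a| ≤ M) (ht : |t| * M ≤ 1 / 2) :
    |t * a| ≤ 1 / 2 ∧ 1 / 2 ≤ 1 + t * a := by
  have h : |t * a| ≤ 1 / 2 := by
    rw [abs_mul]
    exact (mul_le_mul_of_nonneg_left ha (abs_nonneg t)).trans ht
  exact ⟨h, by linarith [(abs_le.1 h).1]⟩

theorem Lf_deriv {a b B A t s : ℝ} (hs : 0 < s) (hB : 0 ≤ B) (h1 : 0 < 1 + t * a)
    (h2 : 0 < 1 + t * A) (hA : A = a + s * b) :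
    HasDerivAt (fun y => Lf a B A y s) (2 * (a - b) / (1 + s) + t * Rf a b B A t s) t := by
  have hD : 0 < (1 + t * a) ^ 2 + t ^ 2 * s * B := by positivity
  have d1 := ((((hasDerivAt_mul_const (x := t) a).const_add 1).pow 2).add
    (((hasDerivAt_pow 2 t).mul_const s).mul_const B)).log hD.ne'
  have d2 := ((((hasDerivAt_mul_const (x := t) A).const_add 1).log h2.ne').const_mul 2).div_const
    (1 + s)
  refine HasDerivAt.congr_deriv ((d1.sub d2).div_const s) ?_
  have hb : b = (A - a) / s := by rw [hA]; field_simp; ring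
  simp only [Rf, Pi.add_apply, Pi.pow_apply, hb]
  field_simp
  ring

theorem Rf_bound {a b B A M t s : ℝ} (hs : 0 < s) (ha : |a| ≤ M / (1 + s))
    (hb : |b| ≤ M / (1 + s)) (hB0 : 0 ≤ B) (hB : B ≤ M / (1 + s) ^ 2) (hA : |A| ≤ M)
    (ht : |t| * M ≤ 1 / 2) : |Rf a b B A t s| ≤ (16 * M + 48 * M ^ 2) / (1 + s) ^ 2 := by
  have hM : 0 ≤ M := (abs_nonneg A).trans hA
  have ha' : |a| ≤ M := ha.trans (div_le_self hM (by linarith))
  obtain ⟨h1, h2⟩ := half_le ha' ht
  obtain ⟨-, h4⟩ := half_le hA ht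
  have hD : 1 / 4 ≤ (1 + t * a) ^ 2 + t ^ 2 * s * B := by
    have : 0 ≤ t ^ 2 * s * B := by positivity
    nlinarith
  have e1 : |2 * B / (((1 + t * a) ^ 2 + t ^ 2 * s * B) * (1 + t * a))| ≤
      16 * M / (1 + s) ^ 2 := by
    rw [abs_of_nonneg (by positivity)]
    calc _ ≤ 2 * (M / (1 + s) ^ 2) / (1 / 4 * (1 / 2)) := by gcongr
      _ = _ := by ring
  have e2 : |a * A - (a - b) * (a + A + t * a * A)| ≤ 6 * M ^ 2 / (1 + s) := by
    have f1 : |a * A| ≤ M / (1 + s) * M := by rw [abs_mul]; gcongr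
    have f2 : |a - b| ≤ 2 * (M / (1 + s)) := by linarith [abs_sub a b]
    have f3 : |t * a * A| ≤ 1 / 2 * M := by rw [abs_mul]; gcongr
    have f4 : |a + A + t * a * A| ≤ 5 / 2 * M := by
      linarith [abs_add_le (a + A) (t * a * A), abs_add_le a A]
    have f5 : |(a - b) * (a + A + t * a * A)| ≤ 2 * (M / (1 + s)) * (5 / 2 * M) := by
      rw [abs_mul]; gcongr
    calc _ ≤ M / (1 + s) * M + 2 * (M / (1 + s)) * (5 / 2 * M) := by
          linarith [abs_sub (a * A) ((a - b) * (a + A + t * a * A))]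
      _ = _ := by ring
  have e3 : |2 * (a * A - (a - b) * (a + A + t * a * A)) /
      ((1 + t * a) * (1 + t * A) * (1 + s))| ≤ 48 * M ^ 2 / (1 + s) ^ 2 := by
    rw [abs_div, abs_mul, abs_two, abs_of_pos (a := _ * _ * _) (by positivity)]
    calc _ ≤ 2 * (6 * M ^ 2 / (1 + s)) / (1 / 2 * (1 / 2) * (1 + s)) := by gcongr
      _ = _ := by field_simp; ring
  calc _ ≤ _ := abs_add_le _ _
    _ ≤ 16 * M / (1 + s) ^ 2 + 48 * M ^ 2 / (1 + s) ^ 2 := add_le_add e1 e3
    _ = _ := by ring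

theorem hasDerivAt_mul_of_cont {r : ℝ → ℝ} (h : ContinuousAt r 0) :
    HasDerivAt (fun t => t * r t) (r 0) 0 := by
  rw [hasDerivAt_iff_tendsto_slope_zero]
  refine (h.tendsto.mono_left nhdsWithin_le_nhds).congr' ?_
  filter_upwards [self_mem_nhdsWithin] with t ht
  have ht' : t ≠ 0 := ht
  simp only [zero_add, zero_mul, sub_zero, smul_eq_mul]
  field_simp

theorem two_derivs {a b B : ℝ → ℝ} {A M : ℝ} (hM : 0 < M) (ma : Measurable a)
    (mb : Measurable b) (mB : Measurable B) (ha : ∀ s, 0 < s → |a s| ≤ M / (1 + s))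
    (hb : ∀ s, 0 < s → |b s| ≤ M / (1 + s)) (hB0 : ∀ s, 0 < s → 0 ≤ B s)
    (hB : ∀ s, 0 < s → B s ≤ M / (1 + s) ^ 2) (hA : |A| ≤ M)
    (hab : ∀ s, 0 < s → A = a s + s * b s) :
    ∃ g : ℝ → ℝ, (∀ t ∈ ball (0 : ℝ) (1 / (2 * M)),
        HasDerivAt (fun y => ∫ s in Ioi 0, Lf (a s) (B s) A y s) (g t) t) ∧
      g 0 = ∫ s in Ioi 0, 2 * (a s - b s) / (1 + s) ∧
      HasDerivAt g (∫ s in Ioi 0, Rf (a s) (b s) (B s) A 0 s) 0 := by
  have hball : ∀ t ∈ ball (0 : ℝ) (1 / (2 * M)), |t| * M ≤ 1 / 2 := fun t ht => by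
    have h : |t| < 1 / (2 * M) := by simpa using ht
    rw [lt_div_iff₀ (by positivity)] at h
    linarith
  have mR : ∀ t, Measurable fun s => Rf (a s) (b s) (B s) A t s := fun t => by
    unfold Rf; fun_prop
  have bR : ∀ s, 0 < s → ∀ t ∈ ball (0 : ℝ) (1 / (2 * M)),
      |Rf (a s) (b s) (B s) A t s| ≤ (16 * M + 48 * M ^ 2) / (1 + s) ^ 2 := fun s hs t ht =>
    Rf_bound hs (ha s hs) (hb s hs) (hB0 s hs) (hB s hs) hA (hball t ht)
  have bG : ∀ s, 0 < s → |2 * (a s - b s) / (1 + s)| ≤ 4 * M / (1 + s) ^ 2 := fun s hs => by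
    rw [abs_div, abs_mul, abs_two, abs_of_pos (a := 1 + s) (by positivity)]
    have : |a s - b s| ≤ 2 * (M / (1 + s)) := by linarith [abs_sub (a s) (b s), ha s hs, hb s hs]
    calc _ ≤ 2 * (2 * (M / (1 + s))) / (1 + s) := by gcongr
      _ = _ := by field_simp; ring
  have ha' : ∀ s, 0 < s → |a s| ≤ M := fun s hs => (ha s hs).trans (div_le_self hM.le (by linarith))
  refine ⟨fun t => (∫ s in Ioi 0, 2 * (a s - b s) / (1 + s)) +
    t * ∫ s in Ioi 0, Rf (a s) (b s) (B s) A t s, fun t ht => ?_, by simp, ?_⟩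
  · have h := (gen (F := fun t s => Lf (a s) (B s) A t s)
      (F' := fun t s => 2 * (a s - b s) / (1 + s) + t * Rf (a s) (b s) (B s) A t s)
      (C := 4 * M + 1 / (2 * M) * (16 * M + 48 * M ^ 2)) (fun x => by unfold Lf; fun_prop)
      (fun x => Measurable.add (by fun_prop) ((mR x).const_mul x))
      (fun s hs x hx => Lf_deriv hs (hB0 s hs) (by linarith [(half_le (ha' s hs) (hball x hx)).2])
        (by linarith [(half_le hA (hball x hx)).2]) (hab s hs))
      (fun s hs x hx => ?_) (fun s _ => by simp [Lf]) ht).2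
    · rwa [integral_add (int_of_bound (by fun_prop) bG)
        ((int_of_bound (mR t) fun s hs => bR s hs t ht).const_mul t), integral_const_mul] at h
    · have hx' : |x| ≤ 1 / (2 * M) := le_of_lt (by simpa using hx)
      have h1 : |x * Rf (a s) (b s) (B s) A x s| ≤
          1 / (2 * M) * ((16 * M + 48 * M ^ 2) / (1 + s) ^ 2) := by
        rw [abs_mul]
        exact mul_le_mul hx' (bR s hs x hx) (abs_nonneg _) (by positivity)
      calc _ ≤ _ := abs_add_le _ _
        _ ≤ _ := add_le_add (bG s hs) h1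
        _ = _ := by ring
  · refine (hasDerivAt_mul_of_cont (r := fun t => ∫ s in Ioi 0, Rf (a s) (b s) (B s) A t s)
      ?_).const_add _
    refine continuousAt_of_dominated (Eventually.of_forall fun t => (mR t).aestronglyMeasurable)
      ?_ (int_base (16 * M + 48 * M ^ 2)) (Eventually.of_forall fun s => ?_)
    · filter_upwards [ball_mem_nhds (0 : ℝ) (show 0 < 1 / (2 * M) by positivity)] with t ht
      exact (ae_restrict_iff' measurableSet_Ioi).2 (Eventually.of_forall fun s hs => bR s hs t ht)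
    · unfold Rf
      by_cases h : 1 + s = 0
      · simp only [h, mul_zero, div_zero, add_zero]
        fun_prop (disch := simp)
      · fun_prop (disch := simp [h])

end Pool.Agent.MP_e7e597_an.H71
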