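import Pool.Agent.MP_e7e597_an.H71.Int

/-! Hyperbolic inequalities. -/

open Real Set

namespace Pool.Agent.MP_e7e597_an.H71

theorem tanh_deriv (x : ℝ) : HasDerivAt tanh (1 - tanh x ^ 2) x := by
  have hc := (cosh_pos x).ne'
  have h := (hasDerivAt_sinh x).div (hasDerivAt_cosh x) hc
  have e : tanh = sinh / cosh := funext fun y => tanh_eq_sinh_div_cosh y
  rw [e]
  refine HasDerivAt.congr_deriv h ?_
  simp only [Pi.div_apply]
  field_simp

theorem tanh_cont : Continuous tanh :=
  continuous_iff_continuousAt.2 fun x => (tanh_deriv x).continuousAt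

theorem tanh_mono : StrictMono tanh :=
  strictMono_of_deriv_pos fun x => by rw [(tanh_deriv x).deriv]; linarith [tanh_sq_lt_one x]

theorem tanh_pos' {x : ℝ} (hx : 0 < x) : 0 < tanh x := by simpa using tanh_mono hx

theorem tanh_nonneg' {x : ℝ} (hx : 0 ≤ x) : 0 ≤ tanh x := by simpa using tanh_mono.monotone hx

theorem tanh_le_self {x : ℝ} (hx : 0 ≤ x) : tanh x ≤ x := by
  have hd : ∀ y, HasDerivAt (fun z => z - tanh z) (1 - (1 - tanh y ^ 2)) y := fun y =>
    (hasDerivAt_id y).sub (tanh_deriv y)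
  have := monotone_of_deriv_nonneg (fun y => (hd y).differentiableAt)
    (fun y => by rw [(hd y).deriv]; nlinarith [sq_nonneg (tanh y)]) hx
  simpa using this

theorem mul_sech_le {x : ℝ} (hx : 0 ≤ x) : x * (1 - tanh x ^ 2) ≤ tanh x := by
  have hc := cosh_pos x
  have h1 : 2 * x ≤ sinh (2 * x) := self_le_sinh_iff.2 (by linarith)
  rw [sinh_two_mul] at h1
  have h2 : 1 - tanh x ^ 2 = 1 / cosh x ^ 2 := by
    rw [tanh_eq_sinh_div_cosh]
    field_simp
    linarith [cosh_sq x]
  rw [h2, tanh_eq_sinh_div_cosh, mul_one_div, div_le_div_iff₀ (by positivity) hc]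
  nlinarith

theorem tanh_add' (x y : ℝ) : tanh (x + y) * (1 + tanh x * tanh y) = tanh x + tanh y := by
  have h1 := cosh_pos x
  have h2 := cosh_pos y
  have h3 := cosh_pos (x + y)
  simp only [tanh_eq_sinh_div_cosh, sinh_add]
  rw [div_mul_eq_mul_div, div_eq_iff h3.ne', cosh_add]
  field_simp

theorem tanh_up {x e : ℝ} (hx : 0 ≤ x) (he : 0 ≤ e) :
    tanh (x + e) ≤ tanh x + (1 - tanh x ^ 2) * e := by
  have h1 := tanh_add' x e
  have h2 := tanh_nonneg' hx
  have h3 := tanh_nonneg' he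
  have h4 := tanh_le_self he
  have h5 : 0 < 1 - tanh x ^ 2 := by linarith [tanh_sq_lt_one x]
  have h6 : 0 ≤ tanh x * tanh e := by positivity
  refine le_of_mul_le_mul_right (a := 1 + tanh x * tanh e) ?_ (by linarith)
  rw [h1]
  nlinarith [mul_le_mul_of_nonneg_left h4 h5.le, mul_nonneg (mul_nonneg h5.le he) h6]

theorem tanh_down {x e : ℝ} (he : 0 ≤ e) (hx : e ≤ x) :
    tanh (x - e) ≤ tanh x - (1 - tanh x ^ 2) * e := by
  have h1 := tanh_add' x (-e)
  rw [tanh_neg, ← sub_eq_add_neg] at h1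
  have h3 := tanh_nonneg' he
  have h2 : tanh e ≤ tanh x := tanh_mono.monotone hx
  have h4 := mul_sech_le he
  have h5 : 0 < 1 - tanh x ^ 2 := by linarith [tanh_sq_lt_one x]
  have h6 : 0 < 1 + tanh x * -tanh e := by nlinarith
  have h7 : e * (1 - tanh x * tanh e) ≤ tanh e := by
    nlinarith [mul_nonneg (mul_nonneg he h3) (sub_nonneg.2 h2)]
  refine le_of_mul_le_mul_right (a := 1 + tanh x * -tanh e) ?_ h6
  rw [h1]
  nlinarith [mul_le_mul_of_nonneg_left h7 h5.le]

/-- `phi t = t tanh t`. -/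
noncomputable def phi (t : ℝ) : ℝ := t * tanh t

/-- `psi t = t coth t`, with the value `1` at `0`. -/
noncomputable def psi (t : ℝ) : ℝ := cosh t / dslope sinh 0 t

theorem psi_zero : psi 0 = 1 := by simp [psi]

theorem psi_of_ne {t : ℝ} (h : t ≠ 0) : psi t = t / tanh t := by
  have h1 : sinh t ≠ 0 := by simpa using h
  have h2 := (cosh_pos t).ne'
  rw [psi, dslope_of_ne _ h, slope_def_field, tanh_eq_sinh_div_cosh]
  simp only [sinh_zero, sub_zero]
  field_simp

theorem psi_cont : Continuous psi := by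
  refine continuous_cosh.div (continuous_iff_continuousAt.2 fun t => ?_) fun t => ?_
  · by_cases h : t = 0
    · subst h
      exact continuousAt_dslope_same.2 (hasDerivAt_sinh 0).differentiableAt
    · exact (continuousAt_dslope_of_ne h).2 continuous_sinh.continuousAt
  · by_cases h : t = 0
    · subst h
      simp
    · rw [dslope_of_ne _ h, slope_def_field]
      simpa using h

theorem phi_cont : Continuous phi := continuous_id.mul tanh_cont

theorem phi_neg (t : ℝ) : phi (-t) = phi t := by simp [phi]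

theorem psi_neg (t : ℝ) : psi (-t) = psi t := by
  by_cases h : t = 0
  · simp [h]
  · rw [psi_of_ne h, psi_of_ne (neg_ne_zero.2 h), tanh_neg, neg_div_neg_eq]

theorem psi_ge {t : ℝ} (ht : 0 ≤ t) : 1 ≤ psi t ∧ t ≤ psi t := by
  rcases ht.eq_or_lt with h | h
  · subst h
    simp [psi_zero]
  · have h1 := tanh_pos' h
    rw [psi_of_ne h.ne', le_div_iff₀ h1, le_div_iff₀ h1]
    exact ⟨by linarith [tanh_le_self ht], by nlinarith [tanh_lt_one t]⟩

theorem one_le_psi (t : ℝ) : 1 ≤ psi t := by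
  rcases le_total 0 t with h | h
  · exact (psi_ge h).1
  · rw [← psi_neg]
    exact (psi_ge (neg_nonneg.2 h)).1

theorem psi_two {t : ℝ} (ht : 0 < t) : psi (2 * t) * tanh t = t * (1 + tanh t ^ 2) := by
  have h1 := tanh_add' t t
  have h2 := tanh_pos' (show 0 < 2 * t by linarith)
  rw [← two_mul t] at h1
  rw [psi_of_ne (by linarith), div_mul_eq_mul_div, div_eq_iff h2.ne']
  linear_combination (-t) * h1

theorem tanh_log {l m : ℝ} (hl : 0 < l) (hm : 0 < m) :
    tanh ((log l - log m) / 2) * (l + m) = l - m := by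
  set d := (log l - log m) / 2 with hd
  have h1 : l = m * (exp d * exp d) := by
    rw [← exp_add, hd, add_halves, exp_sub, exp_log hl, exp_log hm]
    field_simp
  have h2 := exp_pos d
  rw [tanh_eq, exp_neg]
  clear_value d
  subst h1
  field_simp

theorem J_phi {l m : ℝ} (hl : 0 < l) (hm : 0 < m) :
    (l - m) ^ 2 * J (l ^ 2) (m ^ 2) = 4 * phi ((log l - log m) / 2) := by
  have h1 := J_mul (pow_pos hl 2) (pow_pos hm 2)
  have h2 := tanh_log hl hm
  simp only [log_pow, Nat.cast_ofNat] at h1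
  unfold phi
  linear_combination tanh ((log l - log m) / 2) * h1 - (l - m) * J (l ^ 2) (m ^ 2) * h2

theorem J_psi {l m : ℝ} (hl : 0 < l) (hm : 0 < m) :
    (l + m) ^ 2 * J (l ^ 2) (m ^ 2) = 4 * psi ((log l - log m) / 2) := by
  by_cases h : (log l - log m) / 2 = 0
  · have h1 : l = m := log_injOn_pos hl hm (by linarith)
    subst h1
    rw [h, psi_zero, J_self (pow_pos hl 2)]
    field_simp
    ring
  · have h1 := J_mul (pow_pos hl 2) (pow_pos hm 2)
    have h2 := tanh_log hl hm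
    simp only [log_pow, Nat.cast_ofNat] at h1
    have h3 : tanh ((log l - log m) / 2) ≠ 0 := fun h4 =>
      h (tanh_mono.injective (by simpa using h4))
    rw [psi_of_ne h, ← mul_div_assoc, eq_div_iff h3]
    linear_combination h1 + (l + m) * J (l ^ 2) (m ^ 2) * h2

theorem thr_mono {a b T U : ℝ} (ha : 0 < a) (hab : a ≤ b) (hT : 0 < T) (hTU : T ≤ U)
    (h : 2 + 6 * T ^ 2 ≤ 3 * a * T ^ 3) : (b - a) * U ^ 3 + (2 + 6 * U ^ 2) ≤ 3 * b * U ^ 3 := by
  have hU : 0 < U := by linarith
  have h1 : 2 / T ^ 2 + 6 ≤ 3 * a * T := by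
    rw [div_add' _ _ _ (by positivity), div_le_iff₀ (by positivity)]
    linarith
  have h2 : 2 / U ^ 2 ≤ 2 / T ^ 2 := by gcongr
  have h3 : 2 / U ^ 2 + 6 ≤ 3 * a * U := by nlinarith
  rw [div_add' _ _ _ (by positivity), div_le_iff₀ (by positivity)] at h3
  nlinarith [mul_nonneg (sub_nonneg.2 hab) (pow_pos hU 3).le]

theorem tanh_half (a : ℝ) : tanh (a / 2) * (exp a + 1) = exp a - 1 := by
  simpa using tanh_log (exp_pos a) one_pos

theorem exists_root : ∃ a : ℝ, 3.0734 ≤ a ∧ a ≤ 3.074 ∧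
    3 * a * tanh (a / 2) ^ 3 = 2 + 6 * tanh (a / 2) ^ 2 := by
  have e3 : exp 3 = exp 1 ^ 3 := by rw [← exp_nat_mul]; norm_num
  have u1 : (21.6268 : ℝ) ≤ exp 3.074 := by
    rw [show (3.074 : ℝ) = 3 + 0.074 by norm_num, exp_add, e3]
    calc (21.6268 : ℝ) ≤ 2.7182818283 ^ 3 * (1 + 0.074 + 0.074 ^ 2 / 2) := by norm_num
      _ ≤ _ := by
        gcongr
        · exact exp_one_gt_d9.le
        · exact quadratic_le_exp_of_nonneg (by norm_num)
  have u2 : exp 3.0734 ≤ (21.6157 : ℝ) := by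
    rw [show (3.0734 : ℝ) = 3 + 0.0734 by norm_num, exp_add, e3]
    have h := exp_bound' (x := 0.0734) (by norm_num) (by norm_num) (n := 3) (by norm_num)
    simp only [Finset.sum_range_succ, Finset.range_zero, Finset.sum_empty, Nat.factorial] at h
    calc _ ≤ 2.7182818286 ^ 3 * (1.076182 : ℝ) := by
          gcongr
          · exact exp_one_lt_d9.le
          · exact h.trans (by norm_num)
      _ ≤ _ := by norm_num
  have v1 : (0.911609 : ℝ) ≤ tanh (3.074 / 2) := by
    have := tanh_half 3.074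
    nlinarith [tanh_lt_one (3.074 / 2)]
  have v2 : tanh (3.0734 / 2) ≤ (0.91157 : ℝ) := by
    have := tanh_half 3.0734
    nlinarith [tanh_lt_one (3.0734 / 2)]
  have w1 := thr_mono (a := 3.074) (b := 3.074) (by norm_num) le_rfl (by norm_num) v1 (by norm_num)
  have w2 : 3 * 3.0734 * tanh (3.0734 / 2) ^ 3 ≤ 2 + 6 * tanh (3.0734 / 2) ^ 2 := by
    by_contra hn
    have := thr_mono (a := 3.0734) (b := 3.0734) (by norm_num) le_rfl (tanh_pos' (by norm_num)) v2
      (not_le.1 hn).le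
    norm_num at this
  have hc : Continuous fun a : ℝ => 3 * a * tanh (a / 2) ^ 3 - (2 + 6 * tanh (a / 2) ^ 2) := by
    have := tanh_cont
    fun_prop
  obtain ⟨a, ha, h⟩ := intermediate_value_Icc (a := 3.0734) (b := 3.074) (by norm_num)
    hc.continuousOn (show (0 : ℝ) ∈ Icc _ _ from ⟨by linarith, by linarith⟩)
  exact ⟨a, ha.1, ha.2, by linarith⟩

end Pool.Agent.MP_e7e597_an.H71
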