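import Mathlib

/-! Integral representations of `log` and `log ^ 2`. -/

open MeasureTheory Set Filter Topology Metric

namespace Pool.Agent.MP_e7e597_an.H71

theorem int_base (C : ℝ) : IntegrableOn (fun s : ℝ => C / (1 + s) ^ 2) (Ioi 0) := by
  have h := (integrableOn_add_rpow_Ioi_of_lt (a := -2) (c := 0) (m := 1) (by norm_num)
    (by norm_num)).const_mul C
  refine (integrableOn_congr_fun (fun s hs => ?_) measurableSet_Ioi).1 h
  have hs' : (0 : ℝ) < s := hs
  rw [Real.rpow_neg (by linarith), div_eq_mul_inv, add_comm 1 s]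
  norm_cast

theorem int_of_bound {f : ℝ → ℝ} (hm : Measurable f) {C : ℝ}
    (hb : ∀ s, 0 < s → |f s| ≤ C / (1 + s) ^ 2) : IntegrableOn f (Ioi 0) :=
  Integrable.mono' (int_base C) hm.aestronglyMeasurable
    ((ae_restrict_iff' measurableSet_Ioi).2 (Eventually.of_forall fun s hs => hb s hs))

theorem gen {F F' : ℝ → ℝ → ℝ} {R C : ℝ} (hm : ∀ x, Measurable (F x))
    (hm' : ∀ x, Measurable (F' x))
    (hd : ∀ s, 0 < s → ∀ x ∈ ball (0 : ℝ) R, HasDerivAt (fun y => F y s) (F' x s) x)
    (hb : ∀ s, 0 < s → ∀ x ∈ ball (0 : ℝ) R, |F' x s| ≤ C / (1 + s) ^ 2)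
    (h0 : ∀ s, 0 < s → F 0 s = 0) {x : ℝ} (hx : x ∈ ball (0 : ℝ) R) :
    IntegrableOn (F x) (Ioi 0) ∧
      HasDerivAt (fun y => ∫ s in Ioi 0, F y s) (∫ s in Ioi 0, F' x s) x := by
  have hR : (0 : ℝ) ∈ ball (0 : ℝ) R := mem_ball_self (pos_of_mem_ball hx)
  have hi : IntegrableOn (F x) (Ioi 0) := by
    refine int_of_bound (hm x) (C := C * |x|) fun s hs => ?_
    have := (convex_ball (0 : ℝ) R).norm_image_sub_le_of_norm_hasDerivWithin_le
      (fun y hy => (hd s hs y hy).hasDerivWithinAt) (fun y hy => hb s hs y hy) hR hx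
    simp only [h0 s hs, sub_zero, Real.norm_eq_abs] at this
    calc |F x s| ≤ C / (1 + s) ^ 2 * |x| := this
      _ = _ := by ring
  refine ⟨hi, (hasDerivAt_integral_of_dominated_loc_of_deriv_le (μ := volume.restrict (Ioi 0))
    (isOpen_ball.mem_nhds hx) (Eventually.of_forall fun y => (hm y).aestronglyMeasurable) hi
    (hm' x).aestronglyMeasurable ?_ (int_base C) ?_).2⟩
  · exact (ae_restrict_iff' measurableSet_Ioi).2 (Eventually.of_forall fun s hs => hb s hs)
  · exact (ae_restrict_iff' measurableSet_Ioi).2 (Eventually.of_forall fun s hs => hd s hs)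

/-- `J a b = ∫ ds / ((a + s) (b + s))`, the inverse logarithmic mean. -/
noncomputable def J (a b : ℝ) : ℝ := ∫ s in Ioi (0 : ℝ), 1 / ((a + s) * (b + s))

theorem inv_le_base {a s : ℝ} (ha : 0 < a) (hs : 0 < s) :
    1 / (a + s) ≤ (1 + 1 / a) / (1 + s) := by
  rw [div_le_div_iff₀ (by positivity) (by positivity)]
  have : (1 + 1 / a) * (a + s) = a + s + 1 + s / a := by field_simp; ring
  rw [this]
  have : 0 < s / a := by positivity
  linarith

theorem J_int {a b : ℝ} (ha : 0 < a) (hb : 0 < b) :
    IntegrableOn (fun s : ℝ => 1 / ((a + s) * (b + s))) (Ioi 0) := by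
  refine int_of_bound (by fun_prop) (C := (1 + 1 / a) * (1 + 1 / b)) fun s hs => ?_
  rw [abs_of_pos (by positivity)]
  calc 1 / ((a + s) * (b + s)) = 1 / (a + s) * (1 / (b + s)) := by field_simp
    _ ≤ (1 + 1 / a) / (1 + s) * ((1 + 1 / b) / (1 + s)) :=
      mul_le_mul (inv_le_base ha hs) (inv_le_base hb hs) (by positivity) (by positivity)
    _ = _ := by field_simp

theorem J_symm (a b : ℝ) : J a b = J b a := by simp only [J, mul_comm]

theorem J_self {a : ℝ} (ha : 0 < a) : J a a = 1 / a := by
  have h := integral_Ioi_of_hasDerivAt_of_tendsto' (f := fun s : ℝ => -(a + s)⁻¹) (a := 0)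
    (f' := fun s : ℝ => 1 / ((a + s) * (a + s))) (m := -0) (fun x hx => ?_) (J_int ha ha) ?_
  · unfold J
    rw [h]
    simp
  · have hx' : a + x ≠ 0 := by have : (0 : ℝ) ≤ x := hx; positivity
    have := (((hasDerivAt_id x).const_add a).inv hx').neg
    refine HasDerivAt.congr_deriv this ?_
    simp only [id]
    field_simp
  · exact (tendsto_inv_atTop_zero.comp (tendsto_atTop_add_const_left _ a tendsto_id)).neg

theorem J_mul {a b : ℝ} (ha : 0 < a) (hb : 0 < b) :
    (a - b) * J a b = Real.log a - Real.log b := by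
  have h := integral_Ioi_of_hasDerivAt_of_tendsto'
    (f := fun s : ℝ => Real.log (1 + (b - a) * (a + s)⁻¹)) (a := 0)
    (f' := fun s : ℝ => (a - b) * (1 / ((a + s) * (b + s)))) (m := Real.log (1 + (b - a) * 0))
    (fun x hx => ?_) ((J_int ha hb).const_mul _) ?_
  · unfold J
    rw [← integral_const_mul, h]
    have : 1 + (b - a) * (a + 0)⁻¹ = b / a := by field_simp; ring
    rw [this, Real.log_div hb.ne' ha.ne']
    simp
  · have hx0 : (0 : ℝ) ≤ x := hx
    have hx' : a + x ≠ 0 := by positivity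
    have hx'' : b + x ≠ 0 := by positivity
    have h1 : 1 + (b - a) * (a + x)⁻¹ = (b + x) / (a + x) := by field_simp; ring
    have := ((((((hasDerivAt_id x).const_add a).inv hx').const_mul (b - a)).const_add 1).log
      (by simp only [id, Pi.inv_apply]; rw [h1]; positivity))
    refine HasDerivAt.congr_deriv this ?_
    simp only [id, Pi.inv_apply]
    rw [h1]
    field_simp
    ring
  · refine (Real.continuousAt_log (by norm_num)).tendsto.comp ?_
    exact ((tendsto_inv_atTop_zero.comp
      (tendsto_atTop_add_const_left _ a tendsto_id)).const_mul _).const_add 1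

theorem J_pos {a b : ℝ} (ha : 0 < a) (hb : 0 < b) : 0 < J a b := by
  have h := J_mul ha hb
  rcases lt_trichotomy a b with hab | hab | hab
  · have := Real.log_lt_log ha hab
    nlinarith
  · subst hab
    rw [J_self ha]
    positivity
  · have := Real.log_lt_log hb hab
    by_contra hn
    nlinarith

/-- The kernel representing `log ^ 2 / 2`. -/
noncomputable def ker (a s : ℝ) : ℝ :=
  (Real.log (a + s) - Real.log (1 + s) - Real.log a / (1 + s)) / s

theorem ker_exp (y : ℝ) : IntegrableOn (ker (Real.exp y)) (Ioi 0) ∧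
    HasDerivAt (fun z => ∫ s in Ioi 0, ker (Real.exp z) s) y y := by
  set R := |y| + 1 with hR
  have hy : y ∈ ball (0 : ℝ) R := by simp [hR]
  have h := gen (F := fun z s => ker (Real.exp z) s)
    (F' := fun z s => (Real.exp z - 1) * (1 / ((Real.exp z + s) * (1 + s)))) (R := R)
    (C := (Real.exp R + 1) * (1 + Real.exp R)) (fun x => by unfold ker; fun_prop)
    (fun x => by fun_prop) (fun s hs x _ => ?_) (fun s hs x hx => ?_) (fun s _ => by simp [ker]) hy
  · refine ⟨h.1, ?_⟩
    have h2 := h.2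
    rw [integral_const_mul] at h2
    have h3 := J_mul (Real.exp_pos y) one_pos
    rw [Real.log_exp, Real.log_one, sub_zero] at h3
    unfold J at h3
    rwa [h3] at h2
  · have he := Real.exp_pos x
    have h1 := ((((Real.hasDerivAt_exp x).add_const s).log (by positivity)).sub_const
      (Real.log (1 + s))).sub ((hasDerivAt_id x).div_const (1 + s))
    have h2 := h1.div_const s
    simp only [ker, Real.log_exp]
    refine HasDerivAt.congr_deriv h2 ?_
    field_simp
    ring
  · have he := Real.exp_pos x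
    have hx' : |x| < R := by simpa using hx
    have h1 : Real.exp x ≤ Real.exp R := Real.exp_le_exp.2 (abs_lt.1 hx').2.le
    have h2 : 1 / Real.exp x ≤ Real.exp R := by
      rw [one_div, ← Real.exp_neg]
      exact Real.exp_le_exp.2 (by linarith [(abs_lt.1 hx').1])
    have h3 : |Real.exp x - 1| ≤ Real.exp R + 1 := abs_le.2 ⟨by linarith, by linarith⟩
    have h4 : 1 / (Real.exp x + s) ≤ (1 + Real.exp R) / (1 + s) :=
      (inv_le_base he hs).trans (by gcongr)
    rw [abs_mul, abs_of_pos (a := 1 / _) (by positivity)]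
    calc |Real.exp x - 1| * (1 / ((Real.exp x + s) * (1 + s)))
        = |Real.exp x - 1| * (1 / (Real.exp x + s)) * (1 / (1 + s)) := by field_simp
      _ ≤ (Real.exp R + 1) * ((1 + Real.exp R) / (1 + s)) * (1 / (1 + s)) := by gcongr
      _ = _ := by field_simp

theorem ker_int {a : ℝ} (ha : 0 < a) : IntegrableOn (ker a) (Ioi 0) := by
  simpa [Real.exp_log ha] using (ker_exp (Real.log a)).1

theorem ker_val {a : ℝ} (ha : 0 < a) : ∫ s in Ioi 0, ker a s = Real.log a ^ 2 / 2 := by
  have h1 : ∀ y : ℝ, HasDerivAt (fun z => (∫ s in Ioi 0, ker (Real.exp z) s) - z ^ 2 / 2) 0 y :=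
    fun y => by
      have := (ker_exp y).2.sub (((hasDerivAt_id y).pow 2).div_const 2)
      refine HasDerivAt.congr_deriv this ?_
      simp
  have h2 := is_const_of_deriv_eq_zero (fun y => (h1 y).differentiableAt)
    (fun y => (h1 y).deriv) (Real.log a) 0
  simp only [Real.exp_log ha, Real.exp_zero, ker, Real.log_one] at h2 ⊢
  simp only [sub_self, zero_div, integral_zero] at h2
  linarith

end Pool.Agent.MP_e7e597_an.H71
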