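import Pool.Agent.MP_e7e597_an.H71.Defs

/-! Matrix part: spectral form of `K`, singular value decomposition, a determinant identity. -/

open Matrix

namespace Pool.Agent.MP_e7e597_an.H71

theorem exists_spec (N : Matrix (Fin 3) (Fin 3) ℝ) :
    ∃ (V : Matrix (Fin 3) (Fin 3) ℝ) (ν : Fin 3 → ℝ), Vᵀ * V = 1 ∧ V * Vᵀ = 1 ∧
      (∀ i, 0 ≤ ν i) ∧ Nᵀ * N = V * diagonal ν * Vᵀ ∧
      logU N = V * diagonal (fun i => Real.log (ν i) / 2) * Vᵀ := by
  have hP : (Nᵀ * N).PosSemidef := by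
    simpa using posSemidef_conjTranspose_mul_self N
  have hA : (Nᵀ * N).IsHermitian := hP.1
  have hsa : IsSelfAdjoint (Nᵀ * N) := hA
  refine ⟨hA.eigenvectorUnitary, hA.eigenvalues, ?_, ?_, hP.eigenvalues_nonneg, ?_, ?_⟩
  · simpa [star_eq_conjTranspose] using Unitary.coe_star_mul_self hA.eigenvectorUnitary
  · simpa [star_eq_conjTranspose] using Unitary.coe_mul_star_self hA.eigenvectorUnitary
  · have := hA.spectral_theorem
    rw [Unitary.conjStarAlgAut_apply] at this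
    simpa [star_eq_conjTranspose, Function.comp_def] using this
  · have hfin : (spectrum ℝ (Nᵀ * N)).Finite := finite_real_spectrum
    have h1 : logU N = cfc (Real.log ∘ Real.sqrt) (Nᵀ * N) := by
      unfold logU stretch
      rw [cfc_comp Real.log Real.sqrt (Nᵀ * N) hsa ((hfin.image _).continuousOn _)
        (hfin.continuousOn _)]
    rw [h1, hA.cfc_eq, IsHermitian.cfc, Unitary.conjStarAlgAut_apply]
    have h2 : (RCLike.ofReal ∘ (Real.log ∘ Real.sqrt) ∘ hA.eigenvalues : Fin 3 → ℝ) =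
        fun i => Real.log (hA.eigenvalues i) / 2 := by
      funext i
      simp [Real.log_sqrt (hP.eigenvalues_nonneg i)]
    rw [h2]
    simp [star_eq_conjTranspose]

theorem trace_conj (V : Matrix (Fin 3) (Fin 3) ℝ) (h : Vᵀ * V = 1) (x : Fin 3 → ℝ) :
    (V * diagonal x * Vᵀ).trace = ∑ i, x i := by
  rw [trace_mul_comm, ← Matrix.mul_assoc, h, Matrix.one_mul, trace_diagonal]

theorem exists_K (N : Matrix (Fin 3) (Fin 3) ℝ) :
    ∃ ν : Fin 3 → ℝ, (∀ i, 0 ≤ ν i) ∧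
      (∀ s : ℝ, (Nᵀ * N + s • (1 : Matrix (Fin 3) (Fin 3) ℝ)).det = ∏ i, (ν i + s)) ∧
      K N = (∑ i, Real.log (ν i) ^ 2) / 4 - (∑ i, Real.log (ν i)) ^ 2 / 12 := by
  obtain ⟨V, ν, h1, h2, h3, h4, h5⟩ := exists_spec N
  refine ⟨ν, h3, fun s => ?_, ?_⟩
  · have : Nᵀ * N + s • (1 : Matrix (Fin 3) (Fin 3) ℝ) =
        V * diagonal (fun i => ν i + s) * Vᵀ := by
      have h6 : diagonal (fun i => ν i + s) = diagonal ν + s • (1 : Matrix (Fin 3) (Fin 3) ℝ) := by
        ext i j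
        by_cases hij : i = j <;> simp [diagonal, hij, one_apply]
      rw [h6, h4, Matrix.mul_add, Matrix.add_mul]
      simp [h2]
    rw [this, det_mul, det_mul, mul_comm (det V), mul_assoc, ← det_mul, h2, det_one, mul_one,
      det_diagonal]
  · set x : Fin 3 → ℝ := fun i => Real.log (ν i) / 2 with hx
    set m : ℝ := (∑ i, x i) / 3 with hm
    have h6 : dev (logU N) = V * diagonal (fun i => x i - m) * Vᵀ := by
      have h7 : diagonal (fun i => x i - m) = diagonal x - m • (1 : Matrix (Fin 3) (Fin 3) ℝ) := by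
        ext i j
        by_cases hij : i = j <;> simp [diagonal, hij, one_apply]
      unfold dev
      rw [h7, h5, trace_conj V h1, Matrix.mul_sub, Matrix.sub_mul]
      simp [h2, hm]
    have h8 : dev (logU N) * (dev (logU N))ᵀ =
        V * diagonal (fun i => (x i - m) * (x i - m)) * Vᵀ := by
      rw [h6, transpose_mul, transpose_mul, transpose_transpose, diagonal_transpose,
        ← diagonal_mul_diagonal]
      simp only [Matrix.mul_assoc]
      rw [← Matrix.mul_assoc Vᵀ V, h1, Matrix.one_mul]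
    unfold K
    rw [h8, trace_conj V h1]
    simp only [hm, hx, Fin.sum_univ_three]
    ring

theorem exists_svd (F : Matrix (Fin 3) (Fin 3) ℝ) (hF : F.det ≠ 0) :
    ∃ (G V : Matrix (Fin 3) (Fin 3) ℝ) (l : Fin 3 → ℝ), Gᵀ * G = 1 ∧ G * Gᵀ = 1 ∧
      Vᵀ * V = 1 ∧ V * Vᵀ = 1 ∧ (∀ i, 0 < l i) ∧ F = G * diagonal l * Vᵀ := by
  obtain ⟨V, ν, h1, h2, h3, h4, -⟩ := exists_spec F
  have hdet : ∏ i, ν i ≠ 0 := by
    have := congrArg det h4
    rw [det_mul, det_transpose F, det_mul, det_mul, mul_comm (det V), mul_assoc,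
      ← det_mul V Vᵀ, h2, det_one, mul_one, det_diagonal] at this
    rw [← this]
    exact mul_ne_zero hF hF
  have hpos : ∀ i, 0 < ν i := fun i =>
    lt_of_le_of_ne (h3 i) (Finset.prod_ne_zero_iff.1 hdet i (Finset.mem_univ i)).symm
  have hl : ∀ i, 0 < Real.sqrt (ν i) := fun i => Real.sqrt_pos.2 (hpos i)
  set G := F * V * diagonal (fun i => (Real.sqrt (ν i))⁻¹) with hG
  have hGG : Gᵀ * G = 1 := by
    rw [hG, transpose_mul, transpose_mul, diagonal_transpose]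
    simp only [Matrix.mul_assoc]
    rw [← Matrix.mul_assoc Fᵀ F, h4]
    simp only [Matrix.mul_assoc]
    rw [← Matrix.mul_assoc Vᵀ V, h1, Matrix.one_mul, ← Matrix.mul_assoc Vᵀ V, h1, Matrix.one_mul,
      diagonal_mul_diagonal, diagonal_mul_diagonal, ← diagonal_one]
    congr 1
    funext i
    have := Real.mul_self_sqrt (h3 i)
    have h5 := (hl i).ne'
    field_simp
    nlinarith
  refine ⟨G, V, fun i => Real.sqrt (ν i), hGG, mul_eq_one_comm.1 hGG, h1, h2, hl, ?_⟩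
  rw [hG]
  simp only [Matrix.mul_assoc]
  rw [← Matrix.mul_assoc (diagonal _) (diagonal _), diagonal_mul_diagonal]
  have : (fun i => (Real.sqrt (ν i))⁻¹ * Real.sqrt (ν i)) = fun _ => (1 : ℝ) := by
    funext i
    exact inv_mul_cancel₀ (hl i).ne'
  rw [this, diagonal_one, Matrix.one_mul, h2, Matrix.mul_one]

theorem det_conj (G V N : Matrix (Fin 3) (Fin 3) ℝ) (hG : Gᵀ * G = 1) (hV : V * Vᵀ = 1)
    (s : ℝ) :
    ((G * N * Vᵀ)ᵀ * (G * N * Vᵀ) + s • (1 : Matrix (Fin 3) (Fin 3) ℝ)).det =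
      (Nᵀ * N + s • (1 : Matrix (Fin 3) (Fin 3) ℝ)).det := by
  have : (G * N * Vᵀ)ᵀ * (G * N * Vᵀ) + s • (1 : Matrix (Fin 3) (Fin 3) ℝ) =
      V * (Nᵀ * N + s • (1 : Matrix (Fin 3) (Fin 3) ℝ)) * Vᵀ := by
    rw [transpose_mul, transpose_mul, transpose_transpose, Matrix.mul_add, Matrix.add_mul]
    simp only [Matrix.mul_assoc]
    rw [← Matrix.mul_assoc Gᵀ G, hG, Matrix.one_mul]
    simp [hV]
  rw [this, det_mul, det_mul, mul_comm (det V), mul_assoc, ← det_mul, hV, det_one, mul_one]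

theorem line_conj (G V : Matrix (Fin 3) (Fin 3) ℝ) (hG : G * Gᵀ = 1) (hV : V * Vᵀ = 1)
    (D : Matrix (Fin 3) (Fin 3) ℝ) (ξ η : Fin 3 → ℝ) (t : ℝ) :
    G * D * Vᵀ + t • vecMulVec ξ η = G * (D + t • vecMulVec (Gᵀ *ᵥ ξ) (Vᵀ *ᵥ η)) * Vᵀ := by
  rw [Matrix.mul_add, Matrix.add_mul, Matrix.mul_smul, Matrix.smul_mul, mul_vecMulVec,
    vecMulVec_mul, mulVec_mulVec, hG, one_mulVec, vecMul_transpose, mulVec_mulVec, hV, one_mulVec]

theorem det_diag (l ξ η : Fin 3 → ℝ) (t s : ℝ) (h : ∀ i, l i ^ 2 + s ≠ 0) :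
    ((diagonal l + t • vecMulVec ξ η)ᵀ * (diagonal l + t • vecMulVec ξ η) +
        s • (1 : Matrix (Fin 3) (Fin 3) ℝ)).det =
      (∏ i, (l i ^ 2 + s)) * ((1 + t * ∑ i, ξ i * η i * l i / (l i ^ 2 + s)) ^ 2 +
        t ^ 2 * s * ((∑ i, ξ i ^ 2 / (l i ^ 2 + s)) * ∑ i, η i ^ 2 / (l i ^ 2 + s))) := by
  have h0 := h 0
  have h1 := h 1
  have h2 := h 2
  simp only [det_fin_three, Fin.sum_univ_three, Fin.prod_univ_three, Matrix.add_apply,
    Matrix.mul_apply, transpose_apply, Matrix.smul_apply, vecMulVec_apply, diagonal_apply,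
    Matrix.one_apply, smul_eq_mul]
  simp only [Fin.isValue, Fin.reduceEq, ↓reduceIte, zero_add, mul_one, mul_zero, add_zero]
  field_simp
  ring

end Pool.Agent.MP_e7e597_an.H71
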