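import Pool.Agent.MP_e7e597_an.H71.Der
import Pool.Agent.MP_e7e597_an.H71.Mat

/-! First and second derivative of `K` along a rank-one line. -/

open MeasureTheory Set Filter Topology Metric Matrix

namespace Pool.Agent.MP_e7e597_an.H71

/-- First derivative of `K` along a rank-one line, in singular coordinates. -/
noncomputable def k1 (l ξ η : Fin 3 → ℝ) : ℝ :=
  2 * (∑ i, ξ i * η i / l i * Real.log (l i) - (∑ i, Real.log (l i)) * (∑ i, ξ i * η i / l i) / 3)

/-- Second derivative of `K` along a rank-one line, in singular coordinates. -/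
noncomputable def k2 (l ξ η : Fin 3 → ℝ) : ℝ :=
  ∑ i, ∑ j, (ξ i ^ 2 * η j ^ 2 + ξ i * η i * l i * (ξ j * η j / l j)) * J (l i ^ 2) (l j ^ 2) -
    (∑ i, ξ i * η i / l i) * k1 l ξ η - 2 / 3 * (∑ i, ξ i * η i / l i) ^ 2

theorem sum_bound {l : Fin 3 → ℝ} (hl : ∀ i, 0 < l i) (c : Fin 3 → ℝ) {s : ℝ} (hs : 0 < s) :
    |∑ i, c i / (l i ^ 2 + s)| ≤ (∑ i, |c i| * (1 + 1 / l i ^ 2)) / (1 + s) := by
  rw [Finset.sum_div]
  refine (Finset.abs_sum_le_sum_abs _ _).trans (Finset.sum_le_sum fun i _ => ?_)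
  have := hl i
  rw [abs_div, abs_of_pos (a := l i ^ 2 + s) (by positivity), mul_div_assoc, div_eq_mul_one_div]
  exact mul_le_mul_of_nonneg_left (inv_le_base (by positivity) hs) (abs_nonneg _)

theorem int_sum1 {l : Fin 3 → ℝ} (hl : ∀ i, 0 < l i) (c : Fin 3 → ℝ) :
    IntegrableOn (fun s : ℝ => ∑ i, c i * (1 / ((l i ^ 2 + s) * (1 + s)))) (Ioi 0) ∧
      ∫ s in Ioi (0 : ℝ), ∑ i, c i * (1 / ((l i ^ 2 + s) * (1 + s))) =
        ∑ i, c i * J (l i ^ 2) 1 := by
  have h : ∀ i ∈ Finset.univ, Integrable (fun s : ℝ => c i * (1 / ((l i ^ 2 + s) * (1 + s))))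
      (volume.restrict (Ioi 0)) := fun i _ => (J_int (pow_pos (hl i) 2) one_pos).const_mul _
  refine ⟨integrable_finsetSum _ h, ?_⟩
  rw [integral_finsetSum _ h]
  simp only [integral_const_mul, J]

theorem int_sum2 {l : Fin 3 → ℝ} (hl : ∀ i, 0 < l i) (c : Fin 3 → Fin 3 → ℝ) :
    IntegrableOn (fun s : ℝ => ∑ i, ∑ j, c i j * (1 / ((l i ^ 2 + s) * (l j ^ 2 + s)))) (Ioi 0) ∧
      ∫ s in Ioi (0 : ℝ), ∑ i, ∑ j, c i j * (1 / ((l i ^ 2 + s) * (l j ^ 2 + s))) =
        ∑ i, ∑ j, c i j * J (l i ^ 2) (l j ^ 2) := by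
  have h : ∀ i, ∀ j ∈ Finset.univ,
      Integrable (fun s : ℝ => c i j * (1 / ((l i ^ 2 + s) * (l j ^ 2 + s))))
      (volume.restrict (Ioi 0)) := fun i j _ =>
    (J_int (pow_pos (hl i) 2) (pow_pos (hl j) 2)).const_mul _
  have h' : ∀ i ∈ Finset.univ,
      Integrable (fun s : ℝ => ∑ j, c i j * (1 / ((l i ^ 2 + s) * (l j ^ 2 + s))))
      (volume.restrict (Ioi 0)) := fun i _ => integrable_finsetSum _ (h i)
  refine ⟨integrable_finsetSum _ h', ?_⟩
  rw [integral_finsetSum _ h']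
  refine Finset.sum_congr rfl fun i _ => ?_
  rw [integral_finsetSum _ (h i)]
  simp only [integral_const_mul, J]

theorem sum_J {l : Fin 3 → ℝ} (hl : ∀ i, 0 < l i) (w : Fin 3 → ℝ) (c : ℝ) :
    ∑ i, c * (w i * (l i ^ 2 - 1)) * J (l i ^ 2) 1 = 2 * c * ∑ i, w i * Real.log (l i) := by
  rw [Finset.mul_sum]
  refine Finset.sum_congr rfl fun i _ => ?_
  have h := J_mul (pow_pos (hl i) 2) one_pos
  rw [Real.log_one, Real.log_pow] at h
  push_cast at h
  linear_combination c * w i * h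

theorem Rf_zero {a b B A s : ℝ} (hs : 0 < s) (h : A = a + s * b) :
    Rf a b B A 0 s = 2 * (B + a * b) - 2 * A * ((a - b) / (1 + s)) := by
  simp only [Rf, h]
  field_simp
  ring

theorem K_near {l : Fin 3 → ℝ} (hl : ∀ i, 0 < l i) {a B : ℝ → ℝ} {A t : ℝ} (h0 : a 0 = A)
    (ht : 0 < 1 + t * A) {ν : Fin 3 → ℝ} (hν : ∀ i, 0 ≤ ν i)
    (hp : ∀ s, 0 ≤ s → ∏ i, (ν i + s) = (∏ i, (l i ^ 2 + s)) *
      ((1 + t * a s) ^ 2 + t ^ 2 * s * B s)) :
    (∑ i, Real.log (ν i) ^ 2) / 4 - (∑ i, Real.log (ν i)) ^ 2 / 12 =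
      (∑ i, Real.log (l i ^ 2) ^ 2) / 4 + (∫ s in Ioi 0, Lf (a s) (B s) A t s) / 2 -
        (∑ i, Real.log (l i) + Real.log (1 + t * A)) ^ 2 / 3 := by
  have l0 := hl 0
  have l1 := hl 1
  have l2 := hl 2
  have p0 := hp 0 le_rfl
  simp only [add_zero, mul_zero, zero_mul, h0] at p0
  have hne : ∏ i, ν i ≠ 0 := by
    rw [p0, Fin.prod_univ_three]
    positivity
  have hpos : ∀ i, 0 < ν i := fun i =>
    lt_of_le_of_ne (hν i) (Finset.prod_ne_zero_iff.1 hne i (Finset.mem_univ i)).symm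
  have n0 := hpos 0
  have n1 := hpos 1
  have n2 := hpos 2
  have q0 := congrArg Real.log p0
  simp only [Fin.prod_univ_three] at q0
  rw [Real.log_mul (by positivity) (by positivity), Real.log_mul (by positivity) (by positivity),
    Real.log_mul (by positivity) (by positivity), Real.log_mul (by positivity) (by positivity),
    Real.log_mul (by positivity) (by positivity), Real.log_pow (1 + t * A)] at q0
  have hL : ∀ s ∈ Ioi (0 : ℝ), Lf (a s) (B s) A t s =
      ∑ i, ker (ν i) s - ∑ i, ker (l i ^ 2) s := fun s hs => by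
    have hs' : 0 < s := hs
    have p1 := hp s hs'.le
    simp only [Fin.prod_univ_three] at p1
    have hD : (1 + t * a s) ^ 2 + t ^ 2 * s * B s ≠ 0 := fun h => by
      rw [h, mul_zero] at p1
      exact absurd p1 (by positivity)
    have q1 := congrArg Real.log p1
    rw [Real.log_mul (by positivity) (by positivity), Real.log_mul (by positivity) (by positivity),
      Real.log_mul (by positivity) hD, Real.log_mul (by positivity) (by positivity),
      Real.log_mul (by positivity) (by positivity)] at q1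
    simp only [Lf, ker, Fin.sum_univ_three]
    push_cast at q0
    linear_combination (-1 / s) * q1 + 1 / s * (1 / (1 + s)) * q0
  have i1 : ∀ i ∈ Finset.univ, Integrable (ker (ν i)) (volume.restrict (Ioi 0)) :=
    fun i _ => ker_int (hpos i)
  have i2 : ∀ i ∈ Finset.univ, Integrable (ker (l i ^ 2)) (volume.restrict (Ioi 0)) :=
    fun i _ => ker_int (pow_pos (hl i) 2)
  rw [setIntegral_congr_fun measurableSet_Ioi hL,
    integral_sub (integrable_finsetSum _ i1) (integrable_finsetSum _ i2),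
    integral_finsetSum _ i1, integral_finsetSum _ i2]
  simp only [ker_val (hpos _), ker_val (pow_pos (hl _) 2), Fin.sum_univ_three]
  rw [q0]
  simp only [Real.log_pow]
  push_cast
  ring

theorem kappa_deriv {l : Fin 3 → ℝ} (hl : ∀ i, 0 < l i) (ξ η : Fin 3 → ℝ) {κ : ℝ → ℝ}
    (hκ : ∀ t, ∃ ν : Fin 3 → ℝ, (∀ i, 0 ≤ ν i) ∧
      (∀ s, 0 ≤ s → ∏ i, (ν i + s) = (∏ i, (l i ^ 2 + s)) *
        ((1 + t * ∑ i, ξ i * η i * l i / (l i ^ 2 + s)) ^ 2 +
          t ^ 2 * s * ((∑ i, ξ i ^ 2 / (l i ^ 2 + s)) * ∑ i, η i ^ 2 / (l i ^ 2 + s)))) ∧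
      κ t = (∑ i, Real.log (ν i) ^ 2) / 4 - (∑ i, Real.log (ν i)) ^ 2 / 12) :
    ∃ g : ℝ → ℝ, (∀ᶠ t in 𝓝 (0 : ℝ), HasDerivAt κ (g t) t) ∧ g 0 = k1 l ξ η ∧
      HasDerivAt g (k2 l ξ η) 0 ∧
      κ 0 = ∑ i, Real.log (l i) ^ 2 - (∑ i, Real.log (l i)) ^ 2 / 3 := by
  have l0 := hl 0
  have l1 := hl 1
  have l2 := hl 2
  set A : ℝ := ∑ i, ξ i * η i / l i with hA
  set L : ℝ := ∑ i, Real.log (l i) with hL
  set m1 := ∑ i, |ξ i * η i * l i| * (1 + 1 / l i ^ 2) with hm1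
  set m2 := ∑ i, |ξ i * η i / l i| * (1 + 1 / l i ^ 2) with hm2
  set m3 := ∑ i, |ξ i ^ 2| * (1 + 1 / l i ^ 2) with hm3
  set m4 := ∑ i, |η i ^ 2| * (1 + 1 / l i ^ 2) with hm4
  have p1 : 0 ≤ m1 := by positivity
  have p2 : 0 ≤ m2 := by positivity
  have p3 : 0 ≤ m3 := by positivity
  have p4 : 0 ≤ m4 := by positivity
  have p5 : 0 ≤ m3 * m4 := by positivity
  have p6 := abs_nonneg A
  set M := m1 + m2 + m3 * m4 + |A| + 1 with hM
  have hM0 : 0 < M := by positivity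
  have hab : ∀ s, 0 < s → A = ∑ i, ξ i * η i * l i / (l i ^ 2 + s) +
      s * ∑ i, ξ i * η i / l i / (l i ^ 2 + s) := fun s hs => by
    simp only [hA, Fin.sum_univ_three]
    field_simp
    ring
  obtain ⟨g, hg1, hg2, hg3⟩ := two_derivs (M := M) (A := A)
    (a := fun s => ∑ i, ξ i * η i * l i / (l i ^ 2 + s))
    (b := fun s => ∑ i, ξ i * η i / l i / (l i ^ 2 + s))
    (B := fun s => (∑ i, ξ i ^ 2 / (l i ^ 2 + s)) * ∑ i, η i ^ 2 / (l i ^ 2 + s)) hM0
    (by fun_prop) (by fun_prop) (by fun_prop)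
    (fun s hs => (sum_bound hl _ hs).trans (by gcongr; linarith))
    (fun s hs => (sum_bound hl _ hs).trans (by gcongr; linarith))
    (fun s hs => by positivity)
    (fun s hs => by
      calc _ ≤ m3 / (1 + s) * (m4 / (1 + s)) :=
            mul_le_mul ((le_abs_self _).trans (sum_bound hl _ hs))
              ((le_abs_self _).trans (sum_bound hl _ hs)) (by positivity) (by positivity)
        _ = m3 * m4 / (1 + s) ^ 2 := by field_simp
        _ ≤ _ := by gcongr; linarith)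
    (by linarith) hab
  have hball : ∀ t ∈ ball (0 : ℝ) (1 / (2 * M)), 0 < 1 + t * A := fun t ht => by
    have h : |t| < 1 / (2 * M) := by simpa using ht
    rw [lt_div_iff₀ (by positivity)] at h
    linarith [(half_le (a := A) (M := M) (t := t) (by linarith) (by linarith)).2]
  have hκ' : ∀ t ∈ ball (0 : ℝ) (1 / (2 * M)), κ t = (∑ i, Real.log (l i ^ 2) ^ 2) / 4 +
      (∫ s in Ioi 0, Lf (∑ i, ξ i * η i * l i / (l i ^ 2 + s))
        ((∑ i, ξ i ^ 2 / (l i ^ 2 + s)) * ∑ i, η i ^ 2 / (l i ^ 2 + s)) A t s) / 2 -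
      (L + Real.log (1 + t * A)) ^ 2 / 3 := fun t ht => by
    obtain ⟨ν, h1, h2, h3⟩ := hκ t
    rw [h3]
    refine K_near hl (a := fun s => ∑ i, ξ i * η i * l i / (l i ^ 2 + s))
      (B := fun s => (∑ i, ξ i ^ 2 / (l i ^ 2 + s)) * ∑ i, η i ^ 2 / (l i ^ 2 + s)) ?_
      (hball t ht) h1 h2
    simp only [hA, Fin.sum_univ_three]
    field_simp
    ring
  have hb0 : ball (0 : ℝ) (1 / (2 * M)) ∈ 𝓝 (0 : ℝ) := ball_mem_nhds _ (by positivity)
  have dl : ∀ t, 0 < 1 + t * A →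
      HasDerivAt (fun y => L + Real.log (1 + y * A)) (A / (1 + t * A)) t := fun t ht =>
    (((hasDerivAt_mul_const (x := t) A).const_add 1).log ht.ne').const_add L
  have g0 : g 0 = 4 * ∑ i, ξ i * η i / l i * Real.log (l i) := by
    rw [hg2, setIntegral_congr_fun measurableSet_Ioi (g := fun s => ∑ i,
      2 * (ξ i * η i / l i * (l i ^ 2 - 1)) * (1 / ((l i ^ 2 + s) * (1 + s)))) fun s hs => ?_,
      (int_sum1 hl _).2, sum_J hl]
    · ring
    · have hs' : 0 < s := hs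
      simp only [Fin.sum_univ_three]
      field_simp
      ring
  have g1 : (∫ s in Ioi 0, Rf (∑ i, ξ i * η i * l i / (l i ^ 2 + s))
      (∑ i, ξ i * η i / l i / (l i ^ 2 + s))
      ((∑ i, ξ i ^ 2 / (l i ^ 2 + s)) * ∑ i, η i ^ 2 / (l i ^ 2 + s)) A 0 s) =
      2 * (∑ i, ∑ j, (ξ i ^ 2 * η j ^ 2 + ξ i * η i * l i * (ξ j * η j / l j)) *
        J (l i ^ 2) (l j ^ 2)) - 4 * A * ∑ i, ξ i * η i / l i * Real.log (l i) := by
    rw [setIntegral_congr_fun measurableSet_Ioi (g := fun s =>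
      2 * (∑ i, ∑ j, (ξ i ^ 2 * η j ^ 2 + ξ i * η i * l i * (ξ j * η j / l j)) *
        (1 / ((l i ^ 2 + s) * (l j ^ 2 + s)))) - ∑ i,
      2 * A * (ξ i * η i / l i * (l i ^ 2 - 1)) * (1 / ((l i ^ 2 + s) * (1 + s)))) fun s hs => ?_,
      integral_sub ((int_sum2 hl _).1.const_mul 2) (int_sum1 hl _).1, integral_const_mul,
      (int_sum1 hl _).2, (int_sum2 hl _).2, sum_J hl]
    · ring
    · have hs' : 0 < s := hs
      rw [Rf_zero hs' (hab s hs')]
      simp only [Fin.sum_univ_three]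
      field_simp
      ring
  refine ⟨fun t => g t / 2 - 2 * (L + Real.log (1 + t * A)) * (A / (1 + t * A)) / 3, ?_, ?_, ?_, ?_⟩
  · filter_upwards [isOpen_ball.eventually_mem (mem_of_mem_nhds hb0)] with t ht
    have h := ((((hg1 t ht).div_const 2).const_add ((∑ i, Real.log (l i ^ 2) ^ 2) / 4)).sub
      (((dl t (hball t ht)).pow 2).div_const 3))
    refine (HasDerivAt.congr_deriv h (by simp)).congr_of_eventuallyEq ?_
    filter_upwards [isOpen_ball.mem_nhds ht] with y hy using hκ' y hy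
  · simp only [g0, k1, zero_mul, add_zero, Real.log_one, ← hA, ← hL]
    ring
  · have h1 := (hasDerivAt_const (0 : ℝ) A).div ((hasDerivAt_mul_const (x := 0) A).const_add 1)
      (by simp)
    have h := (hg3.div_const 2).sub
      ((((dl 0 (by simp)).const_mul 2).mul h1).div_const 3)
    refine HasDerivAt.congr_deriv h ?_
    simp only [g1, k2, k1, ← hA, ← hL]
    simp
    ring
  · rw [hκ' 0 (mem_of_mem_nhds hb0)]
    simp only [Lf, Real.log_pow, Fin.sum_univ_three]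
    simp
    ring

end Pool.Agent.MP_e7e597_an.H71
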