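import Pool.Agent.MP_e7e597_an.H71.Alg

/-! Positivity of the reduced form on directions tangent to the level sets. -/

open Real Set

namespace Pool.Agent.MP_e7e597_an.H71

/-- Off-diagonal term of the reduced form. -/
noncomputable def H (p t : ℝ) : ℝ := max p 0 * psi t + min p 0 * phi t

/-- The reduced form on tangent directions. -/
noncomputable def Q (d0 d1 d2 w0 w1 w2 : ℝ) : ℝ :=
  w0 ^ 2 + w1 ^ 2 + w2 ^ 2 - (w0 + w1 + w2) ^ 2 / 3 +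
    2 * (H (w0 * w1) ((d0 - d1) / 2) + H (w0 * w2) ((d0 - d2) / 2) + H (w1 * w2) ((d1 - d2) / 2))

theorem H_nonneg {p : ℝ} (hp : 0 ≤ p) (t : ℝ) : H p t = p * psi t := by
  simp [H, max_eq_left hp, min_eq_right hp]

theorem H_nonpos {p : ℝ} (hp : p ≤ 0) (t : ℝ) : H p t = p * phi t := by
  simp [H, max_eq_right hp, min_eq_left hp]

theorem H_swap (p a b : ℝ) : H p ((a - b) / 2) = H p ((b - a) / 2) := by
  rw [show (a - b) / 2 = -((b - a) / 2) by ring, H, H, psi_neg, phi_neg]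

theorem H_smul (r p t : ℝ) : H (r ^ 2 * p) t = r ^ 2 * H p t := by
  rcases le_total 0 p with h | h
  · rw [H_nonneg h, H_nonneg (by positivity), mul_assoc]
  · rw [H_nonpos h, H_nonpos (mul_nonpos_of_nonneg_of_nonpos (sq_nonneg r) h), mul_assoc]

theorem Q_smul (r d0 d1 d2 w0 w1 w2 : ℝ) :
    Q d0 d1 d2 (r * w0) (r * w1) (r * w2) = r ^ 2 * Q d0 d1 d2 w0 w1 w2 := by
  have h : ∀ a b : ℝ, r * a * (r * b) = r ^ 2 * (a * b) := fun a b => by ring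
  simp only [Q, h, H_smul]
  ring

theorem Q_neg (d0 d1 d2 w0 w1 w2 : ℝ) : Q d0 d1 d2 (-w0) (-w1) (-w2) = Q d0 d1 d2 w0 w1 w2 := by
  simpa using Q_smul (-1) d0 d1 d2 w0 w1 w2

theorem Q_swap01 (d0 d1 d2 w0 w1 w2 : ℝ) : Q d0 d1 d2 w0 w1 w2 = Q d1 d0 d2 w1 w0 w2 := by
  simp only [Q, H_swap _ d0 d1, mul_comm w0 w1]
  ring

theorem Q_swap12 (d0 d1 d2 w0 w1 w2 : ℝ) : Q d0 d1 d2 w0 w1 w2 = Q d0 d2 d1 w0 w2 w1 := by
  simp only [Q, H_swap _ d1 d2, mul_comm w1 w2]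
  ring

theorem Q_negd (d0 d1 d2 w0 w1 w2 : ℝ) : Q (-d0) (-d1) (-d2) w0 w1 w2 = Q d0 d1 d2 w0 w1 w2 := by
  simp only [Q, neg_sub_neg, H_swap _ d0 d1, H_swap _ d0 d2, H_swap _ d1 d2]

theorem Q_mixed (d0 d1 d2 : ℝ) {x y z : ℝ} (hx : 0 ≤ x) (hy : 0 ≤ y) (hz : 0 ≤ z) :
    3 / 2 * Q d0 d1 d2 x (-y) (-z) = x ^ 2 + y ^ 2 + z ^ 2 -
      (3 * phi ((d0 - d1) / 2) - 1) * x * y - (3 * phi ((d0 - d2) / 2) - 1) * x * z +
      (3 * psi ((d1 - d2) / 2) - 1) * y * z := by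
  unfold Q
  rw [H_nonpos (p := x * -y) (by nlinarith), H_nonpos (p := x * -z) (by nlinarith),
    H_nonneg (p := -y * -z) (by nlinarith)]
  ring

theorem Q_same (d0 d1 d2 : ℝ) {x y z : ℝ} (hx : 0 ≤ x) (hy : 0 ≤ y) (hz : 0 ≤ z)
    (hne : 0 < x ^ 2 + y ^ 2 + z ^ 2) : 0 < Q d0 d1 d2 x y z := by
  have h1 := mul_nonneg hx hy
  have h2 := mul_nonneg hx hz
  have h3 := mul_nonneg hy hz
  unfold Q
  rw [H_nonneg h1, H_nonneg h2, H_nonneg h3]
  nlinarith [mul_le_mul_of_nonneg_left (one_le_psi ((d0 - d1) / 2)) h1,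
    mul_le_mul_of_nonneg_left (one_le_psi ((d0 - d2) / 2)) h2,
    mul_le_mul_of_nonneg_left (one_le_psi ((d1 - d2) / 2)) h3]

theorem phi_le {t : ℝ} (ht : 0 ≤ t) : phi t ≤ t := by
  unfold phi
  nlinarith [tanh_lt_one t]

/-- The hypotheses of the positivity statement. -/
def Good (a d0 d1 d2 w0 w1 w2 : ℝ) : Prop :=
  d0 + d1 + d2 = 0 ∧ d0 ^ 2 + d1 ^ 2 + d2 ^ 2 < 2 * a ^ 2 ∧ d0 * w0 + d1 * w1 + d2 * w2 = 0 ∧
    0 < w0 ^ 2 + w1 ^ 2 + w2 ^ 2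

section

variable {a : ℝ} (ha0 : 0 < a) (ha : a ≤ 3.2)
  (hr : 3 * a * tanh (a / 2) ^ 3 = 2 + 6 * tanh (a / 2) ^ 2)
include ha0 ha

theorem mixed_a {d0 d1 d2 x y z : ℝ} (hx : 0 ≤ x) (hy : 0 ≤ y) (hz : 0 ≤ z)
    (h : Good a d0 d1 d2 x (-y) (-z)) (h1 : d1 ≤ d0) (h2 : d2 ≤ d1) :
    0 < Q d0 d1 d2 x (-y) (-z) := by
  obtain ⟨g1, g2, g3, g4⟩ := h
  have hq : (d0 - d2) / 2 < a := by
    refine lt_of_pow_lt_pow_left₀ 2 ha0.le ?_
    nlinarith [sq_nonneg (d0 + d2), sq_nonneg d1]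
  have := alg_a (p := (d0 - d1) / 2) (q := (d0 - d2) / 2) (A := 3 * phi ((d0 - d1) / 2) - 1)
    (B := 3 * phi ((d0 - d2) / 2) - 1) (C := 3 * psi ((d1 - d2) / 2) - 1) (by linarith)
    (by linarith) (by linarith) hx hy hz (by linarith)
    (by linarith [phi_le (t := (d0 - d1) / 2) (by linarith)])
    (by linarith [phi_le (t := (d0 - d2) / 2) (by linarith)])
    (by linarith [one_le_psi ((d1 - d2) / 2)])
    (by linarith [(psi_ge (t := (d1 - d2) / 2) (by linarith)).2])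
    (by linear_combination 3 / 2 * g3 - (x - y - z) / 2 * g1)
  linarith [Q_mixed d0 d1 d2 hx hy hz]

include hr

theorem mixed_b {d0 d1 d2 x y z : ℝ} (hx : 0 ≤ x) (hy : 0 ≤ y) (hz : 0 ≤ z)
    (h : Good a d0 d1 d2 x (-y) (-z)) (h1 : d1 < d2) (h2 : d0 ≤ d2) (h3 : 0 ≤ d0) :
    0 < Q d0 d1 d2 x (-y) (-z) := by
  obtain ⟨g1, g2, g3, g4⟩ := h
  set s := (d2 - d1) / 4 with hs
  set e := 3 * d0 / 4 with he
  have hs0 : 0 < s := by linarith
  have hsa : 2 * s < a := by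
    refine lt_of_pow_lt_pow_left₀ 2 ha0.le ?_
    rw [hs]
    nlinarith [sq_nonneg (d1 + d2), sq_nonneg d0]
  have he0 : 0 ≤ e := by linarith
  have hes : e ≤ s := by linarith
  have ht : e / s * s = e := div_mul_cancel₀ e hs0.ne'
  have hT := tanh_pos' hs0
  have e1 : (d0 - d1) / 2 = s + e := by linarith
  have e2 : (d0 - d2) / 2 = -(s - e) := by linarith
  have e3 : (d1 - d2) / 2 = -(2 * s) := by linarith
  have := alg_b (s := s) (t := e / s) (T := tanh s) (x := x) (m := (y + z) / 2) (g := (z - y) / 2)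
    (P := phi (s + e)) (R := phi (s - e)) (C := 3 * psi (2 * s) - 1) hs0 (by linarith)
    (by positivity) ((div_le_one hs0).2 hes) hT (tanh_lt_one s) (mul_sech_le hs0.le) hx ?_
    (by linarith) (by linarith) (by nlinarith [mul_nonneg hy hz]) ?_ ?_
    (by linarith [one_le_psi (2 * s)]) (by linarith [psi_two hs0]) ?_
  · have h4 := Q_mixed d0 d1 d2 hx hy hz
    rw [e1, e2, e3, phi_neg, psi_neg] at h4
    rw [show (y + z) / 2 - (z - y) / 2 = y by ring, show (y + z) / 2 + (z - y) / 2 = z by ring]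
      at this
    linarith
  · refine mul_left_cancel₀ hs0.ne' ?_
    have : s * (e / s * (x + (y + z) / 2) / 3) = e * (x + (y + z) / 2) / 3 := by field_simp
    rw [this, hs, he]
    linear_combination (-1 / 4) * g3 - (y + z) / 8 * g1
  · rw [ht, show s * (1 + e / s) = s + e by linarith]
    exact mul_le_mul_of_nonneg_left (tanh_up hs0.le he0) (by linarith)
  · rw [ht, show s * (1 - e / s) = s - e by linarith]
    exact mul_le_mul_of_nonneg_left (tanh_down he0 hes) (by linarith)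
  · by_contra hn
    have := thr_mono (a := 2 * s) (b := a) (T := tanh s) (U := tanh (a / 2)) (by linarith) hsa.le
      hT (tanh_mono.monotone (by linarith)) (by linarith)
    have h5 : 0 < (a - 2 * s) * tanh (a / 2) ^ 3 :=
      mul_pos (by linarith) (pow_pos (tanh_pos' (by linarith)) 3)
    linarith

theorem mixed_c {d0 d1 d2 x y z : ℝ} (hx : 0 ≤ x) (hy : 0 ≤ y) (hz : 0 ≤ z)
    (h : Good a d0 d1 d2 x (-y) (-z)) (h3 : 0 ≤ d0) : 0 < Q d0 d1 d2 x (-y) (-z) := by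
  wlog h1 : d1 ≤ d2 generalizing d1 d2 y z
  · rw [Q_swap12]
    obtain ⟨g1, g2, g3, g4⟩ := h
    exact this hz hy ⟨by linarith, by linarith, by linarith, by linarith⟩ (not_le.1 h1).le
  rcases le_total d2 d0 with h2 | h2
  · rw [Q_swap12]
    obtain ⟨g1, g2, g3, g4⟩ := h
    exact mixed_a ha0 ha hx hz hy ⟨by linarith, by linarith, by linarith, by linarith⟩ h2 h1
  · rcases h1.eq_or_lt with h4 | h4
    · have g1 := h.1
      exact mixed_a ha0 ha hx hy hz h (by linarith) h4.ge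
    · exact mixed_b ha0 ha hr hx hy hz h h4 h2 h3

theorem mixed {d0 d1 d2 x y z : ℝ} (hx : 0 ≤ x) (hy : y ≤ 0) (hz : z ≤ 0)
    (h : Good a d0 d1 d2 x y z) : 0 < Q d0 d1 d2 x y z := by
  obtain ⟨g1, g2, g3, g4⟩ := h
  rw [← neg_neg y, ← neg_neg z]
  rcases le_total 0 d0 with h3 | h3
  · exact mixed_c ha0 ha hr hx (neg_nonneg.2 hy) (neg_nonneg.2 hz)
      ⟨g1, g2, by linarith, by linarith⟩ h3
  · rw [← Q_negd]
    exact mixed_c ha0 ha hr hx (neg_nonneg.2 hy) (neg_nonneg.2 hz)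
      ⟨by linarith, by linarith, by linarith, by linarith⟩ (neg_nonneg.2 h3)

theorem Q_pos {d0 d1 d2 x y z : ℝ} (h : Good a d0 d1 d2 x y z) : 0 < Q d0 d1 d2 x y z := by
  wlog hx : 0 ≤ x generalizing x y z
  · rw [← Q_neg]
    obtain ⟨g1, g2, g3, g4⟩ := h
    exact this ⟨g1, g2, by linarith, by linarith⟩ (by linarith)
  obtain ⟨g1, g2, g3, g4⟩ := h
  rcases le_total 0 y with hy | hy <;> rcases le_total 0 z with hz | hz
  · exact Q_same d0 d1 d2 hx hy hz g4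
  · rw [← Q_neg, Q_swap12, Q_swap01]
    exact mixed ha0 ha hr (by linarith) (by linarith) (by linarith)
      ⟨by linarith, by linarith, by linarith, by linarith⟩
  · rw [← Q_neg, Q_swap01]
    exact mixed ha0 ha hr (by linarith) (by linarith) (by linarith)
      ⟨by linarith, by linarith, by linarith, by linarith⟩
  · exact mixed ha0 ha hr hx hy hz ⟨g1, g2, g3, g4⟩

theorem exists_k {c : ℝ} (hc : c < 2 * a ^ 2) : ∃ k0 : ℝ, 0 < k0 ∧ ∀ k, k0 ≤ k →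
    ∀ d0 d1 d2 x y z : ℝ, d0 + d1 + d2 = 0 → d0 ^ 2 + d1 ^ 2 + d2 ^ 2 ≤ c →
      0 < x ^ 2 + y ^ 2 + z ^ 2 →
      0 < 2 * (Q d0 d1 d2 x y z - (d0 * x + d1 * y + d2 * z) * (x + y + z)) +
        k * (2 * (d0 * x + d1 * y + d2 * z)) ^ 2 := by
  set S : Set (Fin 6 → ℝ) := {v | v 0 + v 1 + v 2 = 0 ∧ v 0 ^ 2 + v 1 ^ 2 + v 2 ^ 2 ≤ c ∧
    v 3 ^ 2 + v 4 ^ 2 + v 5 ^ 2 = 1} with hS
  have hcl : IsClosed S := by
    refine (isClosed_eq ?_ ?_).and ((isClosed_le ?_ ?_).and (isClosed_eq ?_ ?_)) <;> fun_prop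
  have hcp : IsCompact S := by
    refine (isCompact_closedBall (0 : Fin 6 → ℝ) 5).of_isClosed_subset hcl fun v hv => ?_
    obtain ⟨-, h2, h3⟩ := hv
    rw [mem_closedBall_zero_iff, pi_norm_le_iff_of_nonneg (by norm_num)]
    have h4 : c ≤ 24 := by nlinarith
    intro i
    refine abs_le_of_sq_le_sq' (b := 5) ?_ (by norm_num) |> abs_le.2
    fin_cases i <;> simp only [Fin.reduceFinMk, Fin.isValue] <;>
      nlinarith [sq_nonneg (v 0), sq_nonneg (v 1), sq_nonneg (v 2), sq_nonneg (v 3),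
        sq_nonneg (v 4), sq_nonneg (v 5)]
  set U : ℕ → Set (Fin 6 → ℝ) := fun n => {v | 0 < 2 * (Q (v 0) (v 1) (v 2) (v 3) (v 4) (v 5) -
    (v 0 * v 3 + v 1 * v 4 + v 2 * v 5) * (v 3 + v 4 + v 5)) +
      n * (2 * (v 0 * v 3 + v 1 * v 4 + v 2 * v 5)) ^ 2} with hU
  have hop : ∀ n, IsOpen (U n) := fun n => by
    have c1 := psi_cont
    have c2 := phi_cont
    refine isOpen_lt continuous_const ?_
    unfold Q H
    fun_prop
  have hmono : Monotone U := fun n m hnm v hv => by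
    have h1 : (n : ℝ) ≤ m := Nat.cast_le.2 hnm
    simp only [hU, mem_ofPred_eq] at hv ⊢
    refine lt_of_lt_of_le hv ?_
    gcongr
  obtain ⟨n, hn⟩ := hcp.elim_directed_cover U hop (fun v hv => by
    obtain ⟨h1, h2, h3⟩ := hv
    rw [mem_iUnion]
    by_cases h4 : v 0 * v 3 + v 1 * v 4 + v 2 * v 5 = 0
    · refine ⟨0, ?_⟩
      have := Q_pos ha0 ha hr (⟨h1, by linarith, h4, by linarith⟩ :
        Good a (v 0) (v 1) (v 2) (v 3) (v 4) (v 5))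
      simp only [hU, mem_ofPred_eq, h4]
      linarith
    · have h5 : 0 < (2 * (v 0 * v 3 + v 1 * v 4 + v 2 * v 5)) ^ 2 := by positivity
      obtain ⟨n, hn⟩ := exists_lt_nsmul h5 (-(2 * (Q (v 0) (v 1) (v 2) (v 3) (v 4) (v 5) -
        (v 0 * v 3 + v 1 * v 4 + v 2 * v 5) * (v 3 + v 4 + v 5))))
      refine ⟨n, ?_⟩
      rw [nsmul_eq_mul] at hn
      simp only [hU, mem_ofPred_eq]
      linarith) hmono.directed_le
  refine ⟨n + 1, by positivity, fun k hk d0 d1 d2 x y z h1 h2 h3 => ?_⟩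
  set r := sqrt (x ^ 2 + y ^ 2 + z ^ 2) with hr'
  have r0 : 0 < r := sqrt_pos.2 h3
  have r1 : r ^ 2 = x ^ 2 + y ^ 2 + z ^ 2 := sq_sqrt h3.le
  have h4 := hn (show ![d0, d1, d2, r⁻¹ * x, r⁻¹ * y, r⁻¹ * z] ∈ S from ⟨h1, h2, by
    change (r⁻¹ * x) ^ 2 + (r⁻¹ * y) ^ 2 + (r⁻¹ * z) ^ 2 = 1
    field_simp
    exact r1.symm⟩)
  change 0 < 2 * (Q d0 d1 d2 (r⁻¹ * x) (r⁻¹ * y) (r⁻¹ * z) -
    (d0 * (r⁻¹ * x) + d1 * (r⁻¹ * y) + d2 * (r⁻¹ * z)) * (r⁻¹ * x + r⁻¹ * y + r⁻¹ * z)) +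
      n * (2 * (d0 * (r⁻¹ * x) + d1 * (r⁻¹ * y) + d2 * (r⁻¹ * z))) ^ 2 at h4
  rw [Q_smul] at h4
  have h5 : 0 < r⁻¹ ^ 2 * (2 * (Q d0 d1 d2 x y z - (d0 * x + d1 * y + d2 * z) * (x + y + z)) +
      n * (2 * (d0 * x + d1 * y + d2 * z)) ^ 2) := by linarith
  refine lt_of_lt_of_le ((mul_pos_iff_of_pos_left (by positivity)).1 h5) ?_
  gcongr
  linarith

end

end Pool.Agent.MP_e7e597_an.H71
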