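import Pool.Agent.MP_e7e597_an.H71.Kap
import Pool.Agent.MP_e7e597_an.H71.Quad

/-! Both halves of the sharp ellipticity threshold. -/

open Real Set Filter Topology Matrix

namespace Pool.Agent.MP_e7e597_an.H71

theorem second {W κ g : ℝ → ℝ} {k : ℝ} (hW : ContDiffAt ℝ 2 W (κ 0))
    (h1 : ∀ᶠ t in 𝓝 (0 : ℝ), HasDerivAt κ (g t) t) (h2 : HasDerivAt g k 0) :
    iteratedDeriv 2 (fun t => W (κ t)) 0 =
      deriv (deriv W) (κ 0) * g 0 ^ 2 + deriv W (κ 0) * k := by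
  have h0 := h1.self_of_nhds
  have w1 : ∀ᶠ x in 𝓝 (κ 0), DifferentiableAt ℝ W x :=
    (hW.eventually (by simp)).mono fun x hx => hx.differentiableAt (by simp)
  have w2 : DifferentiableAt ℝ (deriv W) (κ 0) :=
    (hW.derivWithin (m := 1) (by norm_num)).differentiableAt (by simp)
  have e : deriv (fun t => W (κ t)) =ᶠ[𝓝 0] fun t => deriv W (κ t) * g t := by
    filter_upwards [h1, h0.continuousAt.tendsto.eventually w1] with t a b
    exact (b.hasDerivAt.comp t a).deriv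
  rw [iteratedDeriv_succ, iteratedDeriv_one, e.deriv_eq]
  have := ((w2.hasDerivAt.comp 0 h0).mul h2).deriv
  refine Eq.trans this ?_
  simp only [Function.comp]
  ring

theorem line_deriv {G V : Matrix (Fin 3) (Fin 3) ℝ} {l : Fin 3 → ℝ} (g1 : Gᵀ * G = 1)
    (g2 : G * Gᵀ = 1) (v2 : V * Vᵀ = 1) (hl : ∀ i, 0 < l i) (ξ η : Fin 3 → ℝ) :
    K (G * diagonal l * Vᵀ) = ∑ i, log (l i) ^ 2 - (∑ i, log (l i)) ^ 2 / 3 ∧
    ∀ W : ℝ → ℝ, ContDiffAt ℝ 2 W (K (G * diagonal l * Vᵀ)) →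
      iteratedDeriv 2 (fun t : ℝ => W (K (G * diagonal l * Vᵀ + t • vecMulVec ξ η))) 0 =
        deriv (deriv W) (K (G * diagonal l * Vᵀ)) * k1 l (Gᵀ *ᵥ ξ) (Vᵀ *ᵥ η) ^ 2 +
          deriv W (K (G * diagonal l * Vᵀ)) * k2 l (Gᵀ *ᵥ ξ) (Vᵀ *ᵥ η) := by
  obtain ⟨g, h1, h2, h3, h4⟩ := kappa_deriv hl (Gᵀ *ᵥ ξ) (Vᵀ *ᵥ η)
    (κ := fun t => K (G * diagonal l * Vᵀ + t • vecMulVec ξ η)) fun t => by
      obtain ⟨ν, a1, a2, a3⟩ := exists_K (G * diagonal l * Vᵀ + t • vecMulVec ξ η)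
      refine ⟨ν, a1, fun s hs => ?_, a3⟩
      rw [← a2, line_conj G V g2 v2, det_conj G V _ g1 v2, det_diag]
      intro i
      have := hl i
      positivity
  refine ⟨by simpa using h4, fun W hW => ?_⟩
  have := second (W := W) (by simpa using hW) h1 h3
  simpa [h2] using this

theorem pair {l m : ℝ} (hl : 0 < l) (hm : 0 < m) (x y u v : ℝ) :
    (x ^ 2 * v ^ 2 + x * y * l * (u * v / m)) * J (l ^ 2) (m ^ 2) +
      (u ^ 2 * y ^ 2 + u * v * m * (x * y / l)) * J (m ^ 2) (l ^ 2) =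
      4 * H (x * y / l * (u * v / m)) ((log l - log m) / 2) +
        (|x * v| - |u * y|) ^ 2 * J (l ^ 2) (m ^ 2) := by
  rw [J_symm (m ^ 2)]
  set p := x * y / l * (u * v / m) with hp
  have e1 : x * y * l * (u * v / m) = p * l ^ 2 := by rw [hp]; field_simp
  have e2 : u * v * m * (x * y / l) = p * m ^ 2 := by rw [hp]; field_simp
  have e3 : |x * v| * |u * y| = |p| * (l * m) := by
    rw [← abs_mul, ← abs_of_pos (mul_pos hl hm), ← abs_mul, hp]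
    congr 1
    field_simp
  have e4 : (|x * v| - |u * y|) ^ 2 = x ^ 2 * v ^ 2 + u ^ 2 * y ^ 2 - 2 * (|p| * (l * m)) := by
    rw [sub_sq, sq_abs, sq_abs, ← e3]
    ring
  rw [e1, e2, e4]
  rcases le_total 0 p with h | h
  · rw [H_nonneg h, abs_of_nonneg h]
    linear_combination p * J_psi hl hm
  · rw [H_nonpos h, abs_of_nonpos h]
    linear_combination p * J_phi hl hm

theorem k2_eq {l : Fin 3 → ℝ} (hl : ∀ i, 0 < l i) (ξ η : Fin 3 → ℝ) (c : ℝ) :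
    k2 l ξ η = 2 * Q (log (l 0) - c) (log (l 1) - c) (log (l 2) - c) (ξ 0 * η 0 / l 0)
      (ξ 1 * η 1 / l 1) (ξ 2 * η 2 / l 2) - (∑ i, ξ i * η i / l i) * k1 l ξ η +
      ((|ξ 0 * η 1| - |ξ 1 * η 0|) ^ 2 * J (l 0 ^ 2) (l 1 ^ 2) +
        (|ξ 0 * η 2| - |ξ 2 * η 0|) ^ 2 * J (l 0 ^ 2) (l 2 ^ 2) +
        (|ξ 1 * η 2| - |ξ 2 * η 1|) ^ 2 * J (l 1 ^ 2) (l 2 ^ 2)) := by
  have d : ∀ i, (ξ i ^ 2 * η i ^ 2 + ξ i * η i * l i * (ξ i * η i / l i)) * J (l i ^ 2) (l i ^ 2) =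
      2 * (ξ i * η i / l i) ^ 2 := fun i => by
    have := hl i
    rw [J_self (by positivity)]
    field_simp
    ring
  simp only [k2, Q, Fin.sum_univ_three, sub_sub_sub_cancel_right]
  linear_combination d 0 + d 1 + d 2 + pair (hl 0) (hl 1) (ξ 0) (η 0) (ξ 1) (η 1) +
    pair (hl 0) (hl 2) (ξ 0) (η 0) (ξ 2) (η 2) + pair (hl 1) (hl 2) (ξ 1) (η 1) (ξ 2) (η 2)

theorem k2_pos {l : Fin 3 → ℝ} (hl : ∀ i, 0 < l i) {ξ η : Fin 3 → ℝ} (h1 : ξ ≠ 0) (h2 : η ≠ 0)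
    (h : ∀ i, ξ i * η i = 0) : k1 l ξ η = 0 ∧ 0 < k2 l ξ η := by
  refine ⟨by simp [k1, h], ?_⟩
  obtain ⟨i, hi⟩ := Function.ne_iff.1 h1
  obtain ⟨j, hj⟩ := Function.ne_iff.1 h2
  have hi' : ξ i ≠ 0 := hi
  have hj' : η j ≠ 0 := hj
  have p : ∀ i j, 0 < J (l i ^ 2) (l j ^ 2) := fun i j =>
    J_pos (pow_pos (hl i) 2) (pow_pos (hl j) 2)
  simp only [k2, h, zero_mul, zero_div, add_zero, Finset.sum_const_zero]
  have : 0 < ∑ i, ∑ j, ξ i ^ 2 * η j ^ 2 * J (l i ^ 2) (l j ^ 2) := by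
    refine Finset.sum_pos' (fun a _ => Finset.sum_nonneg fun b _ => ?_) ⟨i, Finset.mem_univ _,
      Finset.sum_pos' (fun b _ => ?_) ⟨j, Finset.mem_univ _, ?_⟩⟩
    · exact mul_nonneg (by positivity) (p _ _).le
    · exact mul_nonneg (by positivity) (p _ _).le
    · exact mul_pos (by positivity) (p _ _)
  linarith

theorem mulVec_ne {G : Matrix (Fin 3) (Fin 3) ℝ} (h : G * Gᵀ = 1) {ξ : Fin 3 → ℝ} (hξ : ξ ≠ 0) :
    Gᵀ *ᵥ ξ ≠ 0 := fun h0 => hξ (by rw [← one_mulVec ξ, ← h, ← mulVec_mulVec, h0, mulVec_zero])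

theorem part_A {a : ℝ} (ha0 : 0 < a) (ha : a ≤ 3.2)
    (hr : 3 * a * tanh (a / 2) ^ 3 = 2 + 6 * tanh (a / 2) ^ 2) {c : ℝ} (hc : c < 2 * a ^ 2) :
    ∃ k0 : ℝ, ∀ k, k0 ≤ k → ∀ F : Matrix (Fin 3) (Fin 3) ℝ, 0 < F.det → K F ≤ c →
      EllipticAt (fun s => exp (k * s)) F := by
  obtain ⟨k0, hk0, hk⟩ := exists_k ha0 ha hr hc
  refine ⟨k0, fun k hkk F hF hK ξ η hξ hη => ?_⟩
  obtain ⟨G, V, l, g1, g2, -, v2, hl, rfl⟩ := exists_svd F hF.ne'
  obtain ⟨h1, h2⟩ := line_deriv g1 g2 v2 hl ξ η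
  have k0' : 0 < k := by linarith
  have hd : ∀ s, HasDerivAt (fun s => exp (k * s)) (exp (k * s) * k) s := fun s =>
    (hasDerivAt_const_mul k).exp
  have d1 : deriv (fun s => exp (k * s)) = fun s => exp (k * s) * k := funext fun s => (hd s).deriv
  refine lt_of_lt_of_eq ?_ (h2 (fun s => exp (k * s)) (by fun_prop)).symm
  rw [d1, ((hd _).mul_const k).deriv]
  have x0 := mulVec_ne g2 hξ
  have y0 := mulVec_ne v2 hη
  generalize Gᵀ *ᵥ ξ = x at x0 ⊢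
  generalize Vᵀ *ᵥ η = y at y0 ⊢
  suffices h : 0 < k2 l x y + k * k1 l x y ^ 2 by
    have := mul_pos (mul_pos (exp_pos (k * K (G * diagonal l * Vᵀ))) k0') h
    linarith
  by_cases hw : ∀ i, x i * y i = 0
  · obtain ⟨a1, a2⟩ := k2_pos hl x0 y0 hw
    simpa [a1] using a2
  · obtain ⟨i, hi⟩ := not_forall.1 hw
    have hs : 0 < ∑ i, (x i * y i / l i) ^ 2 :=
      Finset.sum_pos' (fun _ _ => sq_nonneg _) ⟨i, Finset.mem_univ _, by
        have := (hl i).ne'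
        positivity⟩
    rw [h1] at hK
    simp only [Fin.sum_univ_three] at hs hK
    set m := (log (l 0) + log (l 1) + log (l 2)) / 3 with hm
    have a1 := hk k hkk (log (l 0) - m) (log (l 1) - m) (log (l 2) - m) _ _ _ (by linarith)
      (by rw [hm]; linarith) hs
    have a2 : k1 l x y = 2 * ((log (l 0) - m) * (x 0 * y 0 / l 0) +
        (log (l 1) - m) * (x 1 * y 1 / l 1) + (log (l 2) - m) * (x 2 * y 2 / l 2)) := by
      simp only [k1, Fin.sum_univ_three, hm]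
      ring
    have p : ∀ i j (r : ℝ), 0 ≤ r ^ 2 * J (l i ^ 2) (l j ^ 2) := fun i j r =>
      mul_nonneg (sq_nonneg r) (J_pos (pow_pos (hl i) 2) (pow_pos (hl j) 2)).le
    rw [k2_eq hl x y m, a2, Fin.sum_univ_three]
    linarith [p 0 1 (|x 0 * y 1| - |x 1 * y 0|), p 0 2 (|x 0 * y 2| - |x 2 * y 0|),
      p 1 2 (|x 1 * y 2| - |x 2 * y 1|)]

theorem part_B {a : ℝ} (ha0 : 0 < a) (hr : 3 * a * tanh (a / 2) ^ 3 = 2 + 6 * tanh (a / 2) ^ 2)
    {b : ℝ} (hb : a ≤ b) : K (diagonal ![1, exp (-b), exp b]) = 2 * b ^ 2 ∧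
      ∀ W : ℝ → ℝ, ContDiffOn ℝ 2 W (Ici 0) → ¬EllipticAt W (diagonal ![1, exp (-b), exp b]) := by
  set l : Fin 3 → ℝ := ![1, exp (-b), exp b] with hl0
  have hb0 : 0 < b := by linarith
  have hl : ∀ i, 0 < l i := fun i => by fin_cases i <;> simp [hl0, exp_pos]
  have key := line_deriv (G := 1) (V := 1) (by simp) (by simp) (by simp) hl
  simp only [transpose_one, Matrix.one_mul, Matrix.mul_one, one_mulVec] at key
  have hK : K (diagonal l) = 2 * b ^ 2 := by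
    rw [(key 0 0).1]
    simp [hl0, Fin.sum_univ_three]
    ring
  refine ⟨hK, fun W hW hE => ?_⟩
  have hW' : ContDiffAt ℝ 2 W (K (diagonal l)) :=
    hW.contDiffAt (Ici_mem_nhds (by rw [hK]; positivity))
  have hpos : 0 < deriv W (K (diagonal l)) := by
    have x0 : (![1, 0, 0] : Fin 3 → ℝ) ≠ 0 := by simp
    have y0 : (![0, 1, 0] : Fin 3 → ℝ) ≠ 0 := by simp
    have h := hE _ _ x0 y0
    obtain ⟨a1, a2⟩ := k2_pos hl x0 y0 (fun i => by fin_cases i <;> simp)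
    rw [(key _ _).2 W hW', a1] at h
    exact (mul_pos_iff_of_pos_right a2).1 (by simpa using h)
  set T := tanh (b / 2) with hT
  have T0 : 0 < T := tanh_pos' (by linarith)
  have T1 : T < 1 := tanh_lt_one _
  have h1 := thr_mono ha0 hb (tanh_pos' (by linarith)) (tanh_mono.monotone
    (show a / 2 ≤ b / 2 by linarith)) hr.ge
  rw [← hT] at h1
  have h2 : 2 + 6 * T ^ 2 ≤ 3 * b * T ^ 3 := by
    linarith [mul_nonneg (sub_nonneg.2 hb) (pow_pos T0 3).le]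
  set x := 3 * (b / 2 * T) - 1 with hx
  have x0 : 0 < x := by
    refine (mul_pos_iff_of_pos_right (pow_pos T0 2)).1 ?_
    rw [hx]
    nlinarith
  have r0 := sqrt_pos.2 x0
  have r1 := sqrt_pos.2 (exp_pos (-b))
  have r2 := sqrt_pos.2 (exp_pos b)
  have h := hE ![√x, √(exp (-b)), √(exp b)] ![√x, -√(exp (-b)), -√(exp b)]
    (fun h => r0.ne' (congrFun h 0)) (fun h => r0.ne' (congrFun h 0))
  have w0 : √x * √x / 1 = x := by rw [mul_self_sqrt x0.le, div_one]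
  have w1 : √(exp (-b)) * -√(exp (-b)) / exp (-b) = -1 := by
    rw [mul_neg, mul_self_sqrt (exp_pos _).le, neg_div, div_self (exp_pos _).ne']
  have w2 : √(exp b) * -√(exp b) / exp b = -1 := by
    rw [mul_neg, mul_self_sqrt (exp_pos _).le, neg_div, div_self (exp_pos _).ne']
  have a1 : k1 l ![√x, √(exp (-b)), √(exp b)] ![√x, -√(exp (-b)), -√(exp b)] = 0 := by
    simp only [k1, Fin.sum_univ_three, hl0, cons_val_zero, cons_val_one, cons_val_two, tail_cons,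
      head_cons, w0, w1, w2, log_exp, log_one]
    ring
  have a2 : k2 l ![√x, √(exp (-b)), √(exp b)] ![√x, -√(exp (-b)), -√(exp b)] =
      2 * Q 0 (-b) b x (-1) (-1) := by
    rw [k2_eq hl _ _ 0, a1]
    simp only [hl0, cons_val_zero, cons_val_one, cons_val_two, tail_cons,
      head_cons, w0, w1, w2, log_exp, log_one, sub_zero]
    simp only [mul_neg, abs_neg]
    rw [mul_comm √(exp (-b)) √x, mul_comm √(exp b) √x, mul_comm √(exp b) √(exp (-b))]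
    ring
  have a3 : Q 0 (-b) b x (-1) (-1) ≤ 0 := by
    have q := Q_mixed 0 (-b) b x0.le zero_le_one zero_le_one
    rw [show (0 - -b) / 2 = b / 2 by ring, show (0 - b) / 2 = -(b / 2) by ring,
      show (-b - b) / 2 = -(2 * (b / 2)) by ring, phi_neg, psi_neg, phi, ← hT, ← hx] at q
    have q2 := psi_two (show 0 < b / 2 by linarith)
    rw [← hT] at q2
    have q3 : 3 / 2 * Q 0 (-b) b x (-1) (-1) * T = 3 / 4 * b * (2 + 6 * T ^ 2 - 3 * b * T ^ 3) := by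
      rw [q, hx]
      linear_combination 3 * q2
    by_contra hn
    nlinarith [mul_pos (not_le.1 hn) T0, mul_nonneg hb0.le (sub_nonneg.2 h2)]
  rw [(key _ _).2 W hW', a1, a2] at h
  nlinarith [mul_nonneg hpos.le (neg_nonneg.2 a3)]

end Pool.Agent.MP_e7e597_an.H71
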